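import Pool.Agent.HM94.NL.ProgSav
import Pool.Agent.HM94.MSC.CircUp

/-!
# Monotone circuits of small depth for directed reachability
-/

set_option autoImplicit false

namespace Pool.Agent.HM94.NL

open Finset Pool.Agent.HM94.MSC

variable {T m : ℕ}

open Classical in
/-- The paths of length `2 ^ j` as functions. -/
noncomputable def PF (j t : ℕ) (u v : Fin m) : Fn (Edge T m) := fun x => decide (Pth x j t u v)

theorem pth_lt (x : Edge T m → Bool) : ∀ (j t : ℕ) (u v : Fin m), Pth x j t u v → t < T := by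
  intro j
  induction j with
  | zero => rintro t u v ⟨h, _⟩; exact h
  | succ j ih => rintro t u v ⟨z, h, _⟩; exact ih t u z h

theorem PF_false {j t : ℕ} (ht : T ≤ t) (u v : Fin m) (x : Edge T m → Bool) :
    PF j t u v x = false := by
  unfold PF
  rw [decide_eq_false_iff_not]
  intro h
  have := pth_lt x j t u v h
  omega

/-- The functions of the level `j`. -/
def Lv (T m b j : ℕ) : Set (Fn (Edge T m) × ℕ) := {a | ∃ t u v, a = (PF j t u v, j * (b + 1))}

theorem ok_seg {b j : ℕ} (hb : m ≤ 2 ^ b) (hm : 0 < m) (t : ℕ) (u v : Fin m) {s : ℕ}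
    {A : Set (Fn (Edge T m) × ℕ)} (hA : Lv T m b j ⊆ A) (hok : Ok s A) :
    Ok (s + (m + (m - 1))) (insert (PF (j + 1) t u v, (j + 1) * (b + 1)) A) := by
  set G : Fin m → Fn (Edge T m) := fun z x => PF j t u z x && PF j (t + 2 ^ j) z v x with hG
  set l : List (Fn (Edge T m)) := (List.finRange m).map G with hl
  have hlen : l.length = m := by rw [hl, List.length_map, List.length_finRange]
  have h1 := ok_list 1 (j * (b + 1) + 1) l (by
    intro F hF s' A' hAA' hok'
    rw [hl, List.mem_map] at hF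
    obtain ⟨z, _, rfl⟩ := hF
    have h2 := ok_and (F := PF j t u z) (G := PF j (t + 2 ^ j) z v)
      (hAA' (hA ⟨_, _, _, rfl⟩)) (hAA' (hA ⟨_, _, _, rfl⟩)) hok'
    rw [max_self] at h2
    exact h2) hok
  rw [one_mul, hlen] at h1
  have hl0 : l ≠ [] := by
    intro h
    rw [h] at hlen
    simp at hlen
    omega
  have h2 := ok_tree (j * (b + 1) + 1) b l hl0 (by rw [hlen]; exact hb)
    (fun F hF => Or.inr ⟨hF, rfl⟩) h1
  rw [hlen, add_assoc] at h2
  refine ok_imp (fun a ha => ?_) h2
  rcases Set.mem_insert_iff.1 ha with h | h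
  · subst h
    refine ⟨_, Set.mem_insert _ _, fun x => ?_, ?_⟩
    · simp only
      rw [Bool.eq_iff_iff, List.any_eq_true, hl]
      simp only [PF, decide_eq_true_eq, List.mem_map]
      constructor
      · rintro ⟨F, ⟨z, _, rfl⟩, h6⟩
        simp only [hG, PF, Bool.and_eq_true, decide_eq_true_eq] at h6
        exact ⟨z, h6⟩
      · rintro ⟨z, h3, h4⟩
        refine ⟨G z, ⟨z, List.mem_finRange z, rfl⟩, ?_⟩
        simp only [hG, PF, Bool.and_eq_true, decide_eq_true_eq]
        exact ⟨h3, h4⟩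
    · simp only
      rw [add_mul, one_mul]
      omega
  · exact ⟨a, Set.mem_insert_of_mem _ (Or.inl h), fun _ => rfl, le_rfl⟩

theorem ok_lv {b : ℕ} (hb : m ≤ 2 ^ b) (hm : 0 < m) : ∀ j : ℕ,
    Ok (1 + T * (m * m) + j * ((m + (m - 1)) * (T * (m * m)))) (Lv T m b j) := by
  intro j
  induction j with
  | zero =>
    rw [zero_mul, add_zero]
    have h1 := ok_cst (ι := Edge T m) false ok_zero
    set l : List (Fn (Edge T m)) := (univ : Finset (Edge T m)).toList.map
      fun e : Edge T m => fun x => x e with hl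
    have hlen : l.length = T * (m * m) := by
      rw [hl, List.length_map, Finset.length_toList, card_univ, Fintype.card_prod,
        Fintype.card_prod, Fintype.card_fin, Fintype.card_fin]
    have h2 := ok_list 1 0 l (by
      intro F hF s' A' hAA' hok'
      rw [hl, List.mem_map] at hF
      obtain ⟨e, _, rfl⟩ := hF
      exact ok_inp e hok') h1
    rw [one_mul, hlen, zero_add] at h2
    refine ok_imp (fun a ha => ?_) h2
    obtain ⟨t, u, v, rfl⟩ := ha
    rcases Nat.lt_or_ge t T with h3 | h3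
    · refine ⟨((fun x => x (⟨t, h3⟩, u, v)), 0), Or.inr ⟨?_, rfl⟩, fun x => ?_, Nat.zero_le _⟩
      · rw [hl, List.mem_map]
        exact ⟨(⟨t, h3⟩, u, v), by simp, rfl⟩
      · simp only [PF]
        rw [Bool.eq_iff_iff]
        simp only [decide_eq_true_eq]
        constructor
        · intro h4; exact ⟨h3, h4⟩
        · rintro ⟨_, h4⟩; exact h4
    · refine ⟨_, Or.inl (Set.mem_insert _ _), fun x => ?_, Nat.zero_le _⟩
      simp only
      rw [PF_false h3]
  | succ j ih =>
    set l : List (Fn (Edge T m)) := (univ : Finset (Edge T m)).toList.map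
      fun e : Edge T m => PF (j + 1) e.1 e.2.1 e.2.2 with hl
    have hlen : l.length = T * (m * m) := by
      rw [hl, List.length_map, Finset.length_toList, card_univ, Fintype.card_prod,
        Fintype.card_prod, Fintype.card_fin, Fintype.card_fin]
    have h2 := ok_list (m + (m - 1)) ((j + 1) * (b + 1)) l (by
      intro F hF s' A' hAA' hok'
      rw [hl, List.mem_map] at hF
      obtain ⟨e, _, rfl⟩ := hF
      exact ok_seg hb hm _ _ _ hAA' hok') ih
    rw [hlen] at h2
    have h3 : 1 + T * (m * m) + j * ((m + (m - 1)) * (T * (m * m))) +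
        (m + (m - 1)) * (T * (m * m)) =
        1 + T * (m * m) + (j + 1) * ((m + (m - 1)) * (T * (m * m))) := by ring
    rw [h3] at h2
    refine ok_imp (fun a ha => ?_) h2
    obtain ⟨t, u, v, rfl⟩ := ha
    rcases Nat.lt_or_ge t T with h4 | h4
    · refine ⟨(PF (j + 1) t u v, (j + 1) * (b + 1)), Or.inr ⟨?_, rfl⟩, fun _ => rfl, le_rfl⟩
      rw [hl, List.mem_map]
      exact ⟨(⟨t, h4⟩, u, v), by simp, rfl⟩
    · refine ⟨(PF j t u v, j * (b + 1)), Or.inl ⟨t, u, v, rfl⟩, fun x => ?_, ?_⟩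
      · simp only
        rw [PF_false h4, PF_false h4]
      · exact Nat.mul_le_mul_right _ (by omega)

/-- The circuit. -/
theorem circ_sav {k b : ℕ} (hb : m ≤ 2 ^ b) (hm : 0 < m) :
    ∃ (s : ℕ) (C : Circ (Edge (2 ^ k) m) s) (o : Fin s), s ≤ 2 ^ k * m ^ 2 * (2 * m * k + 2) ∧
      C.Mono ∧ C.depth o ≤ k * (b + 1) + 2 * b ∧ ∀ x, C.val x o = conn x := by
  have h1 := ok_lv (T := 2 ^ k) hb hm k
  set l : List (Fn (Edge (2 ^ k) m)) := (univ : Finset (Fin m × Fin m)).toList.map
      fun q : Fin m × Fin m => PF k 0 q.1 q.2 with hl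
  have hlen : l.length = m * m := by
    rw [hl, List.length_map, Finset.length_toList, card_univ, Fintype.card_prod, Fintype.card_fin]
  have hmm : 0 < m * m := Nat.mul_pos hm hm
  have hl0 : l ≠ [] := by
    intro h
    rw [h] at hlen
    simp at hlen
    omega
  have h2 := ok_tree (k * (b + 1)) (2 * b) l hl0 (by
    rw [hlen, two_mul, pow_add]
    exact Nat.mul_le_mul hb hb) (by
    intro F hF
    rw [hl, List.mem_map] at hF
    obtain ⟨q, _, rfl⟩ := hF
    exact ⟨0, q.1, q.2, rfl⟩) h1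
  rw [hlen] at h2
  obtain ⟨C, hC, h3⟩ := h2
  obtain ⟨o, h4, h5⟩ := h3 _ (Set.mem_insert _ _)
  refine ⟨_, C, o, ?_, hC, h5, fun x => ?_⟩
  · have h6 : m * m ≤ 2 ^ k * (m * m) := Nat.le_mul_of_pos_left _ (by positivity)
    have h7 : k * ((m + (m - 1)) * (2 ^ k * (m * m))) ≤ k * ((2 * m) * (2 ^ k * (m * m))) :=
      Nat.mul_le_mul_left _ (Nat.mul_le_mul_right _ (by omega))
    have h8 : 2 ^ k * m ^ 2 * (2 * m * k + 2) =
        k * ((2 * m) * (2 ^ k * (m * m))) + 2 * (2 ^ k * (m * m)) := by ring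
    rw [h8]
    omega
  · rw [h4]
    simp only
    rw [Bool.eq_iff_iff, List.any_eq_true, hl, conn_iff]
    simp only [List.mem_map]
    constructor
    · rintro ⟨F, ⟨q, _, rfl⟩, h6⟩
      exact ⟨q.1, q.2, by simpa [PF] using h6⟩
    · rintro ⟨u, v, h6⟩
      exact ⟨_, ⟨(u, v), by simp, rfl⟩, by simpa [PF] using h6⟩

end Pool.Agent.HM94.NL
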