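import Pool.Agent.HM94.NL.Random
import Pool.Agent.HM94.MSC.Maps

/-!
# Renaming the inputs of machines; register programs are machines
-/

set_option autoImplicit false

namespace Pool.Agent.HM94.NL

open Finset Pool.Agent.HM94.MSC

variable {ι ι' Q : Type}

/-- The machine with renamed inputs. -/
def Machine.map (d : ι') (φ : ι → ι' ⊕ Bool) (M : Machine ι Q) : Machine ι' Q where
  start := M.start
  query t σ := match φ (M.query t σ) with
    | .inl i => i
    | .inr _ => d
  next t σ b := match φ (M.query t σ) with
    | .inl _ => M.next t σ b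
    | .inr c => M.next t σ c
  len := M.len
  acc := M.acc

theorem Machine.map_next (d : ι') (φ : ι → ι' ⊕ Bool) (M : Machine ι Q) (t : ℕ) (σ : Q)
    (x : ι' → Bool) : (M.map d φ).next t σ (x ((M.map d φ).query t σ)) =
      M.next t σ (pull φ x (M.query t σ)) := by
  rcases hφ : φ (M.query t σ) with i | c
  · simp [Machine.map, pull, hφ]
  · simp [Machine.map, pull, hφ]

theorem Machine.map_st (d : ι') (φ : ι → ι' ⊕ Bool) (M : Machine ι Q) (x : ι' → Bool) (t : ℕ) :
    (M.map d φ).st x t = M.st (pull φ x) t := by
  induction t with
  | zero => rfl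
  | succ t ih =>
    change (M.map d φ).next t ((M.map d φ).st x t) (x ((M.map d φ).query t ((M.map d φ).st x t))) =
      M.next t (M.st (pull φ x) t) (pull φ x (M.query t (M.st (pull φ x) t)))
    rw [Machine.map_next, ih]

theorem Machine.map_out (d : ι') (φ : ι → ι' ⊕ Bool) (M : Machine ι Q) (x : ι' → Bool) :
    (M.map d φ).out x = M.out (pull φ x) := by
  unfold Machine.out
  rw [Machine.map_st]
  rfl

theorem Machine.map_monoIn [Preorder Q] {M : Machine ι Q} {H : Set ι} (hM : M.MonoIn H) (d : ι')
    (φ : ι → ι' ⊕ Bool) (H' : Set ι') (h : ∀ i, ∀ j ∈ H', φ i = .inl j → i ∈ H) :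
    (M.map d φ).MonoIn H' where
  state t ht x σ τ hστ := by
    rw [Machine.map_next, Machine.map_next]
    exact hM.state t ht (pull φ x) σ τ hστ
  input t ht σ hq := by
    unfold Machine.map at hq ⊢
    simp only at hq ⊢
    rcases hφ : φ (M.query t σ) with i | c
    · rw [hφ] at hq
      exact hM.input t ht σ (h _ i hq hφ)
    · exact le_rfl
  acc := hM.acc

section prog

variable {R : Type} [DecidableEq R]

/-- A register program as a machine. -/
def progM (P : List (Instr ι R)) (o : R) (d : ι) : Machine ι (R → Bool) where
  start := fun _ => false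
  query t _ := match P[t]? with
    | some (.inp _ i) => i
    | _ => d
  next t σ b := match P[t]? with
    | some (.inp q _) => Function.update σ q b
    | some I => Instr.step (fun _ => b) σ I
    | none => σ
  len := P.length
  acc σ := σ o

theorem progM_next (P : List (Instr ι R)) (o : R) (d : ι) (x : ι → Bool) (t : ℕ)
    (ht : t < P.length) (σ : R → Bool) :
    (progM P o d).next t σ (x ((progM P o d).query t σ)) = Instr.step x σ P[t] := by
  unfold progM
  simp only [List.getElem?_eq_getElem ht]
  rcases P[t] with ⟨q, i⟩ | ⟨q, b⟩ | ⟨q, a⟩ | ⟨q, a, b⟩ | ⟨q, a, b⟩ <;> rfl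

theorem progM_st (P : List (Instr ι R)) (o : R) (d : ι) (x : ι → Bool) (t : ℕ)
    (ht : t ≤ P.length) : (progM P o d).st x t = exec x (P.take t) := by
  induction t with
  | zero => rfl
  | succ t ih =>
    change (progM P o d).next t ((progM P o d).st x t)
      (x ((progM P o d).query t ((progM P o d).st x t))) = _
    rw [progM_next P o d x t (by omega), ih (by omega)]
    unfold exec run
    rw [List.take_succ_eq_append_getElem (by omega : t < P.length), List.foldl_append]
    rfl

theorem progM_out (P : List (Instr ι R)) (o : R) (d : ι) (x : ι → Bool) :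
    (progM P o d).out x = exec x P o := by
  unfold Machine.out
  have h : (progM P o d).len = P.length := rfl
  rw [h, progM_st P o d x P.length le_rfl, List.take_length]
  rfl

theorem update_le {σ τ : R → Bool} (h : σ ≤ τ) (q : R) {a b : Bool} (hab : a ≤ b) :
    Function.update σ q a ≤ Function.update τ q b := by
  intro u
  by_cases hq : u = q
  · subst hq
    rw [Function.update_self, Function.update_self]
    exact hab
  · rw [Function.update_of_ne hq, Function.update_of_ne hq]
    exact h u

theorem progM_mono {P : List (Instr ι R)} (hP : MonoProg P) (o : R) (d : ι) (H : Set ι) :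
    (progM P o d).MonoIn H where
  state t ht x σ τ hστ := by
    have ht' : t < P.length := ht
    rw [progM_next P o d x t ht', progM_next P o d x t ht']
    rcases hg : P[t] with ⟨q, i⟩ | ⟨q, b⟩ | ⟨q, a⟩ | ⟨q, a, b⟩ | ⟨q, a, b⟩
    · exact update_le hστ q le_rfl
    · exact update_le hστ q le_rfl
    · exfalso
      apply hP q a
      rw [← hg]
      exact List.getElem_mem _
    · refine update_le hστ q ?_
      have h1 := hστ a
      have h2 := hστ b
      revert h1 h2
      cases σ a <;> cases τ a <;> cases σ b <;> cases τ b <;> simp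
    · refine update_le hστ q ?_
      have h1 := hστ a
      have h2 := hστ b
      revert h1 h2
      cases σ a <;> cases τ a <;> cases σ b <;> cases τ b <;> simp
  input t ht σ _ := by
    have ht' : t < P.length := ht
    unfold progM
    simp only [List.getElem?_eq_getElem ht']
    rcases hg : P[t] with ⟨q, i⟩ | ⟨q, b⟩ | ⟨q, a⟩ | ⟨q, a, b⟩ | ⟨q, a, b⟩
    · exact update_le le_rfl q (by simp)
    · exact le_rfl
    · exact le_rfl
    · exact le_rfl
    · exact le_rfl
  acc σ τ hστ h := by
    have h1 := hστ o
    change σ o = true at h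
    change τ o = true
    rw [h] at h1
    revert h1
    cases τ o <;> simp

theorem space_registers {w S : ℕ} (h : w ≤ S) : SpaceLE (Fin w → Bool) S := by
  left
  refine ⟨inferInstance, ?_⟩
  rw [Nat.card_eq_fintype_card, Fintype.card_fun, Fintype.card_bool, Fintype.card_fin]
  exact Nat.pow_le_pow_right (by norm_num) h

end prog

end Pool.Agent.HM94.NL
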