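import Pool.Agent.HM94.NL.Asym
import Pool.Agent.HM94.NL.MachineMap
import Pool.Agent.HM94.NL.CircSav
import Pool.Agent.HM94.MSC.Family

/-!
# Directed reachability on `n` bits
-/

set_option autoImplicit false

namespace Pool.Agent.HM94.NL

open Finset Filter Pool.Agent.HM94.MSC

variable {T m n : ℕ}

/-- The numbering of the edges. -/
def ecode : Edge T m ≃ Fin (T * (m * m)) :=
  ((Equiv.refl (Fin T)).prodCongr finProdFinEquiv).trans finProdFinEquiv

/-- The input bit of an edge. -/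
def ebit (h : T * (m * m) ≤ n) (e : Edge T m) : Fin n := Fin.castLE h (ecode e)

theorem ebit_injective (h : T * (m * m) ≤ n) : Function.Injective (ebit h : Edge T m → Fin n) := by
  intro a b hab
  unfold ebit at hab
  exact ecode.injective (Fin.castLE_injective h hab)

open Classical in
/-- Reading the bits from the edges. -/
noncomputable def eback (h : T * (m * m) ≤ n) (i : Fin n) : Edge T m ⊕ Bool :=
  if hi : ∃ e : Edge T m, ebit h e = i then .inl hi.choose else .inr false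

theorem pull_eback (h : T * (m * m) ≤ n) (x : Edge T m → Bool) (e : Edge T m) :
    pull (eback h) x (ebit h e) = x e := by
  have hi : ∃ e' : Edge T m, ebit h e' = ebit h e := ⟨e, rfl⟩
  unfold pull eback
  rw [dif_pos hi]
  simp only
  rw [ebit_injective h hi.choose_spec]

/-- The first bits of the input are the edges of a graph with `2 ^ k + 1` levels of `2 ^ b` vertices:
directed reachability. -/
noncomputable def reach (k b n : ℕ) (x : Fin n → Bool) : Bool :=
  if h : 2 ^ k * (2 ^ b * 2 ^ b) ≤ n then conn fun e : Edge (2 ^ k) (2 ^ b) => x (ebit h e)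
  else false

theorem reach_circ {k b : ℕ} (h : 2 ^ k * (2 ^ b * 2 ^ b) ≤ n) :
    ∃ (s : ℕ) (C : Circ (Fin n) s) (o : Fin s), s ≤ 2 ^ k * (2 ^ b) ^ 2 * (2 * 2 ^ b * k + 2) ∧
      C.depth o ≤ k * (b + 1) + 2 * b ∧ C.Mono ∧ ∀ x, C.val x o = reach k b n x := by
  obtain ⟨s, C, o, hs, hC, hd, ho⟩ := circ_sav (k := k) (m := 2 ^ b) (b := b) le_rfl (by positivity)
  refine ⟨s, C.map fun e => .inl (ebit h e), o, hs, ?_, map_mono hC _, fun x => ?_⟩
  · rw [Circ.map_depth]; exact hd
  · rw [Circ.map_val, ho]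
    unfold reach
    rw [dif_pos h]
    rfl

theorem asym_det (δ ε : ℝ) (hε0 : 0 < ε) (hεδ : ε ≤ δ) (hδ1 : δ ≤ 1) : ∀ᶠ m : ℕ in atTop,
    ∀ (T : ℕ), 2 ≤ T → T ≤ m → ∀ (S : ℕ) {Q : Type} [Preorder Q] (M : Machine (Edge T m) Q),
      M.MonoIn Set.univ → SpaceLE Q S → (S : ℝ) ≤ (m : ℝ) ^ (1 - δ) → (∀ x, M.out x = conn x) →
      (T : ℝ) ^ ((δ - ε) * Real.logb 2 m) ≤ M.len := by
  filter_upwards [asym δ ε hε0 hεδ hδ1, eventually_ge_atTop 1] with m h hm1
  intro T hT hTm S Q _ M hM hQ hS hout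
  have h1 := h T univ (by rw [card_univ, Fintype.card_fin]; exact hT)
    (by rw [card_univ, Fintype.card_fin]; exact hTm) S 0 M.len (Ω := Unit) (fun _ => 1)
    (fun _ => zero_le_one) (by simp) (fun _ => M) (fun _ => ?_) (fun _ => hQ) (fun _ => le_rfl) hS
    ?_ ?_
  · rw [card_univ, Fintype.card_fin] at h1
    exact h1
  · exact ⟨hM.state, fun t ht σ _ => hM.input t ht σ (Set.mem_univ _), hM.acc⟩
  · rw [pow_zero]
    exact Real.one_le_rpow (by exact_mod_cast hm1) (by positivity)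
  · intro x x' hx hx'
    have h2 : conn x' = false := by
      by_contra hc
      rw [Bool.not_eq_false] at hc
      have := uconn_of_conn hc
      rw [hx'] at this
      exact absurd this (by simp)
    simp only [hout, hx, h2]
    simp

theorem tendsto_log2 : Tendsto (Nat.log 2) atTop atTop := by
  refine tendsto_atTop.2 fun b => ?_
  filter_upwards [eventually_ge_atTop (2 ^ b)] with n hn
  exact (Nat.le_log_iff_pow_le (by norm_num) (by
    have : 0 < 2 ^ b := by positivity
    omega)).2 hn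

/-- The number `k`: there are `2 ^ k + 1` levels. -/
def kk (α : ℕ → ℕ) (n : ℕ) : ℕ := min (α n) (Nat.log 2 (Nat.log 2 n))

/-- The number `b`: the levels have `2 ^ b` vertices. -/
def bb (α : ℕ → ℕ) (n : ℕ) : ℕ := (Nat.log 2 n - kk α n) / 2

theorem kk_tendsto {α : ℕ → ℕ} (hα : Tendsto α atTop atTop) : Tendsto (kk α) atTop atTop := by
  refine tendsto_atTop.2 fun b => ?_
  filter_upwards [hα.eventually (eventually_ge_atTop b),
    (tendsto_log2.comp tendsto_log2).eventually (eventually_ge_atTop b)] with n h1 h2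
  simp only [Function.comp_apply] at h2
  unfold kk
  omega

theorem log_lt (l : ℕ) (hl : 100 ≤ l) : 10 * Nat.log 2 l ≤ l := by
  have h1 : 2 ^ Nat.log 2 l ≤ l := Nat.pow_log_le_self 2 (by omega)
  rcases Nat.lt_or_ge (Nat.log 2 l) 10 with h | h
  · omega
  · have h2 : ∀ j : ℕ, 10 ≤ j → 10 * j ≤ 2 ^ j := by
      intro j hj
      induction j, hj using Nat.le_induction with
      | base => norm_num
      | succ j hj ih =>
        rw [pow_succ]
        omega
    exact (h2 _ h).trans h1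

theorem class_upper {α : ℕ → ℕ} (hα : Tendsto α atTop atTop) : ∀ᶠ n in atTop,
    ∃ (s : ℕ) (C : Circ (Fin n) s) (o : Fin s), s ≤ n ^ 2 ∧ C.depth o ≤ α n * Nat.log 2 n ∧
      C.Mono ∧ ∀ x, C.val x o = reach (kk α n) (bb α n) n x := by
  filter_upwards [hα.eventually (eventually_ge_atTop 4),
    tendsto_log2.eventually (eventually_ge_atTop 100), eventually_ge_atTop 1] with n h1 h2 h3
  have hll := log_lt _ h2
  have hk1 : kk α n ≤ α n := by unfold kk; omega
  have hk2 : kk α n ≤ Nat.log 2 (Nat.log 2 n) := by unfold kk; omega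
  have hbb : 2 * bb α n + kk α n ≤ Nat.log 2 n := by unfold bb; omega
  set lam := Nat.log 2 n with hlam
  set k := kk α n with hk
  set b := bb α n with hb
  have hn : 2 ^ lam ≤ n := Nat.pow_log_le_self 2 (by omega)
  have h4 : 2 ^ k * (2 ^ b * 2 ^ b) ≤ n := by
    rw [← pow_add, ← pow_add]
    exact (Nat.pow_le_pow_right (by norm_num) (by omega)).trans hn
  obtain ⟨s, C, o, hs, hd, hC, ho⟩ := reach_circ h4
  refine ⟨s, C, o, hs.trans ?_, hd.trans ?_, hC, ho⟩
  · have h5 : 2 * 2 ^ b * k + 2 ≤ 2 ^ (b + k + 1) := by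
      have h6 : k + 1 ≤ 2 ^ k := Nat.lt_two_pow_self
      have h7 : 2 ≤ 2 * 2 ^ b := by
        have : 1 ≤ 2 ^ b := Nat.one_le_two_pow
        omega
      calc 2 * 2 ^ b * k + 2 ≤ 2 * 2 ^ b * k + 2 * 2 ^ b := by omega
        _ = 2 * 2 ^ b * (k + 1) := by ring
        _ ≤ 2 * 2 ^ b * 2 ^ k := Nat.mul_le_mul_left _ h6
        _ = 2 ^ (b + k + 1) := by rw [pow_succ, pow_add]; ring
    calc 2 ^ k * (2 ^ b) ^ 2 * (2 * 2 ^ b * k + 2)
        ≤ 2 ^ k * (2 ^ b) ^ 2 * 2 ^ (b + k + 1) := Nat.mul_le_mul_left _ h5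
      _ = 2 ^ (k + b * 2 + (b + k + 1)) := by rw [← pow_mul, ← pow_add, ← pow_add]
      _ ≤ 2 ^ (lam * 2) := Nat.pow_le_pow_right (by norm_num) (by omega)
      _ = (2 ^ lam) ^ 2 := by rw [pow_mul]
      _ ≤ n ^ 2 := Nat.pow_le_pow_left hn 2
  · have h5 : 4 * (b + 1) ≤ 2 * lam + 4 := by omega
    have h6 : 3 * (b + 1) ≤ 2 * lam := by omega
    have h7 : 2 * (k * (b + 1) + 2 * b) ≤ 2 * (α n * lam) := by
      calc 2 * (k * (b + 1) + 2 * b) ≤ 2 * ((k + 2) * (b + 1)) :=
            Nat.mul_le_mul_left _ (by nlinarith)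
        _ = (2 * (k + 2)) * (b + 1) := by ring
        _ ≤ (3 * α n) * (b + 1) := Nat.mul_le_mul_right _ (by omega)
        _ = α n * (3 * (b + 1)) := by ring
        _ ≤ α n * (2 * lam) := Nat.mul_le_mul_left _ h6
        _ = 2 * (α n * lam) := by ring
    omega

theorem class_lower {α : ℕ → ℕ} (hα : Tendsto α atTop atTop) (ε : ℝ) (hε0 : 0 < ε)
    (hε1 : ε ≤ 1) (K : ℕ) : ∀ᶠ n in atTop,
    ∀ (S : ℕ) {Q : Type} [Preorder Q] (M : Machine (Fin n) Q), M.MonoIn Set.univ → SpaceLE Q S →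
      (S : ℝ) ≤ (n : ℝ) ^ (1 / 2 - ε) → M.len ≤ n ^ K →
      ¬ ∀ x, M.out x = reach (kk α n) (bb α n) n x := by
  have hbt : Tendsto (bb α) atTop atTop := by
    refine tendsto_atTop.2 fun b => ?_
    filter_upwards [tendsto_log2.eventually (eventually_ge_atTop (4 * b + 100))] with n hn
    have hll := log_lt (Nat.log 2 n) (by omega)
    have hk2 : kk α n ≤ Nat.log 2 (Nat.log 2 n) := by unfold kk; omega
    unfold bb
    omega
  have hpow : Tendsto (fun n => 2 ^ (bb α n)) atTop atTop :=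
    (tendsto_pow_atTop_atTop_of_one_lt (by norm_num : (1 : ℕ) < 2)).comp hbt
  obtain ⟨D, hD⟩ := exists_nat_gt (1 / ε)
  have hD0 : (0 : ℝ) < D := lt_trans (by positivity) hD
  have hD1 : 1 < ε * D := by
    rw [div_lt_iff₀ hε0] at hD
    linarith
  filter_upwards [hpow.eventually (asym_det ε (ε / 2) (by linarith) (by linarith) hε1),
    (kk_tendsto hα).eventually (eventually_ge_atTop (2 * D * (8 * K + 1))),
    (tendsto_log2.comp tendsto_log2).eventually (eventually_ge_atTop 7),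
    tendsto_log2.eventually (eventually_ge_atTop 100),
    (tendsto_log2.comp tendsto_log2).eventually
      ((tendsto_pow_const_div_const_pow_of_one_lt 1 (r := (2 : ℝ)) (by norm_num)).eventually
        (gt_mem_nhds (show (0 : ℝ) < 1 / (8 * D) by positivity))),
    eventually_ge_atTop 1] with n h1 h2 h3' h3 h4' h4
  intro S Q _ M hM hQ hS hlen hout
  simp only [Function.comp_apply] at h3' h4'
  have hll := log_lt _ h3
  have hk2 : kk α n ≤ Nat.log 2 (Nat.log 2 n) := by unfold kk; omega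
  have hbb : 2 * bb α n + kk α n ≤ Nat.log 2 n := by unfold bb; omega
  have hbb' : Nat.log 2 n ≤ 2 * bb α n + kk α n + 1 := by unfold bb; omega
  set lam := Nat.log 2 n with hlam
  set k := kk α n with hk
  set b := bb α n with hb
  set mu := Nat.log 2 lam with hmu
  have hlammu : 2 ^ mu ≤ lam := Nat.pow_log_le_self 2 (by omega)
  have h5' : 8 * D * mu ≤ lam := by
    rw [pow_one, div_lt_div_iff₀ (by positivity) (by positivity)] at h4'
    have h6 : ((8 * D * mu : ℕ) : ℝ) < ((2 ^ mu : ℕ) : ℝ) := by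
      push_cast
      linarith
    have h7 : 8 * D * mu < 2 ^ mu := by exact_mod_cast h6
    omega
  have hn : 2 ^ lam ≤ n := Nat.pow_log_le_self 2 (by omega)
  have hnlt : n < 2 ^ (lam + 1) := Nat.lt_pow_succ_log_self (by norm_num) n
  have h5 : 2 ^ k * (2 ^ b * 2 ^ b) ≤ n := by
    rw [← pow_add, ← pow_add]
    exact (Nat.pow_le_pow_right (by norm_num) (by omega)).trans hn
  have hk1 : 1 ≤ k := by
    have : 1 ≤ 2 * D * (8 * K + 1) := by
      have hDn : 0 < D := by exact_mod_cast hD0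
      exact Nat.mul_pos (by omega) (by omega)
    omega
  have hT : 2 ≤ 2 ^ k := by
    calc 2 = 2 ^ 1 := by norm_num
      _ ≤ 2 ^ k := Nat.pow_le_pow_right (by norm_num) hk1
  have hTm : 2 ^ k ≤ 2 ^ b := Nat.pow_le_pow_right (by norm_num) (by omega)
  have hlog : Real.logb 2 ((2 ^ b : ℕ) : ℝ) = b := by
    push_cast
    rw [Real.logb_pow, Real.logb_self_eq_one (by norm_num), mul_one]
  have hbD : D * (k + 2) ≤ b := by
    have h6 : 8 * D * 2 ≤ 8 * D * mu := Nat.mul_le_mul_left _ (by omega)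
    have h7 : D * k ≤ D * mu := Nat.mul_le_mul_left _ hk2
    have h8 : 8 * (D * mu) = 8 * D * mu := by ring
    have h9 : 8 * (D * 2) = 8 * D * 2 := by ring
    have h10 : D * (k + 2) = D * k + D * 2 := by ring
    omega
  have hS' : (S : ℝ) ≤ ((2 ^ b : ℕ) : ℝ) ^ ((1 : ℝ) - ε) := by
    rcases le_or_gt ε (1 / 2) with he | he
    · refine hS.trans ?_
      have h6 : (n : ℝ) ≤ (2 : ℝ) ^ ((2 * b + k + 2 : ℕ) : ℝ) := by
        rw [Real.rpow_natCast]
        have h7 : n ≤ 2 ^ (2 * b + k + 2) :=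
          hnlt.le.trans (Nat.pow_le_pow_right (by norm_num) (by omega))
        exact_mod_cast h7
      have h8 : ((2 ^ b : ℕ) : ℝ) ^ ((1 : ℝ) - ε) = (2 : ℝ) ^ ((b : ℝ) * (1 - ε)) := by
        push_cast
        rw [← Real.rpow_natCast, ← Real.rpow_mul (by norm_num)]
      rw [h8]
      calc (n : ℝ) ^ (1 / 2 - ε) ≤ ((2 : ℝ) ^ ((2 * b + k + 2 : ℕ) : ℝ)) ^ (1 / 2 - ε) :=
            Real.rpow_le_rpow (by positivity) h6 (by linarith)
        _ = (2 : ℝ) ^ (((2 * b + k + 2 : ℕ) : ℝ) * (1 / 2 - ε)) := by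
            rw [← Real.rpow_mul (by norm_num)]
        _ ≤ (2 : ℝ) ^ ((b : ℝ) * (1 - ε)) := by
            refine Real.rpow_le_rpow_of_exponent_le (by norm_num) ?_
            have h9 : ((D * (k + 2) : ℕ) : ℝ) ≤ b := by exact_mod_cast hbD
            push_cast at h9 ⊢
            have h10 : (k : ℝ) + 2 ≤ ε * b := by
              have h11 : (k : ℝ) + 2 ≤ ε * D * (k + 2) := by
                have h12 : (0 : ℝ) ≤ (k : ℝ) + 2 := by positivity
                nlinarith
              have h13 : ε * (D * (k + 2)) ≤ ε * b := mul_le_mul_of_nonneg_left h9 hε0.le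
              linarith
            have h11 : (0 : ℝ) ≤ b := by positivity
            have h12 : ((k : ℝ) + 2) * (1 / 2 - ε) ≤ (ε * b) * 1 := by
              refine mul_le_mul h10 (by linarith) (by linarith) (by positivity)
            nlinarith
    · have h6 : (n : ℝ) ^ (1 / 2 - ε) ≤ 1 := by
        refine Real.rpow_le_one_of_one_le_of_nonpos (by exact_mod_cast h4) (by linarith)
      refine (hS.trans h6).trans (Real.one_le_rpow ?_ (by linarith))
      exact_mod_cast Nat.one_le_two_pow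
  have hd : Edge (2 ^ k) (2 ^ b) := (⟨0, by positivity⟩, ⟨0, by positivity⟩, ⟨0, by positivity⟩)
  have h6 := h1 (2 ^ k) hT hTm S (M.map hd (eback h5))
    (Machine.map_monoIn hM hd (eback h5) Set.univ fun _ _ _ _ => Set.mem_univ _) hQ hS' (by
      intro x
      rw [Machine.map_out, hout]
      unfold reach
      rw [dif_pos h5]
      congr 1
      funext e
      exact pull_eback h5 x e)
  change (((2 ^ k : ℕ) : ℝ) ^ _) ≤ ((M.len : ℕ) : ℝ) at h6
  rw [hlog] at h6
  have h7 : (M.len : ℝ) < (2 : ℝ) ^ ((lam + 1) * K + 1) := by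
    have h8 : M.len < 2 ^ ((lam + 1) * K + 1) := by
      calc M.len ≤ n ^ K := hlen
        _ ≤ (2 ^ (lam + 1)) ^ K := Nat.pow_le_pow_left hnlt.le _
        _ = 2 ^ ((lam + 1) * K) := by rw [← pow_mul]
        _ < 2 ^ ((lam + 1) * K + 1) := Nat.pow_lt_pow_right (by norm_num) (by omega)
    exact_mod_cast h8
  have h8 : (((2 ^ k : ℕ) : ℝ) ^ ((ε - ε / 2) * b)) = (2 : ℝ) ^ ((k : ℝ) * (ε / 2 * b)) := by
    push_cast
    rw [← Real.rpow_natCast, ← Real.rpow_mul (by norm_num)]
    congr 1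
    ring
  rw [h8] at h6
  have h9 : (2 : ℝ) ^ ((lam + 1) * K + 1) ≤ (2 : ℝ) ^ ((k : ℝ) * (ε / 2 * b)) := by
    rw [← Real.rpow_natCast]
    refine Real.rpow_le_rpow_of_exponent_le (by norm_num) ?_
    have h11 : (((lam + 1) * K + 1 : ℕ) : ℝ) ≤ (8 * K + 1) * b := by
      have h12 : (lam + 1) * K + 1 ≤ (8 * K + 1) * b := by
        have h11 : lam + 1 ≤ 8 * b := by omega
        have h12 : (lam + 1) * K ≤ 8 * b * K := Nat.mul_le_mul_right _ h11
        have h13 : (8 * K + 1) * b = 8 * b * K + b := by ring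
        omega
      exact_mod_cast h12
    refine h11.trans ?_
    have h12 : ((2 * D * (8 * K + 1) : ℕ) : ℝ) ≤ k := by exact_mod_cast h2
    push_cast at h12
    have h13 : (0 : ℝ) ≤ b := by positivity
    have h14 : (8 * (K : ℝ) + 1) ≤ k * (ε / 2) := by
      have h15 : (2 * (D : ℝ) * (8 * K + 1)) * (ε / 2) ≤ k * (ε / 2) :=
        mul_le_mul_of_nonneg_right h12 (by positivity)
      have h16 : (0 : ℝ) ≤ 8 * K + 1 := by positivity
      nlinarith
    calc (8 * (K : ℝ) + 1) * b ≤ k * (ε / 2) * b := mul_le_mul_of_nonneg_right h14 h13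
      _ = k * (ε / 2 * b) := by ring
  linarith

end Pool.Agent.HM94.NL
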