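import Pool.Agent.HM94.NL.Random

/-!
# The asymptotic form of the lower bound
-/

set_option autoImplicit false

namespace Pool.Agent.HM94.NL

open Finset Filter Pool.Agent.HM94.MSC

theorem clog_le_logb {n : ℕ} (hn : 1 ≤ n) : (Nat.clog 2 n : ℝ) ≤ Real.logb 2 n + 1 := by
  have hn0 : (1 : ℝ) ≤ n := by exact_mod_cast hn
  have h0 : 0 ≤ Real.logb 2 n := Real.logb_nonneg (by norm_num) hn0
  rcases Nat.lt_or_ge 1 n with h | h
  · have h1 := Nat.pow_pred_clog_lt_self (b := 2) (by norm_num) h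
    have h2 : ((2 : ℝ) ^ (Nat.clog 2 n).pred) < n := by exact_mod_cast h1
    have h3 : (((Nat.clog 2 n).pred : ℕ) : ℝ) < Real.logb 2 n := by
      rw [Real.lt_logb_iff_rpow_lt (by norm_num) (by linarith), Real.rpow_natCast]
      exact h2
    have h4 : (Nat.clog 2 n : ℝ) ≤ ((Nat.clog 2 n).pred : ℕ) + 1 := by
      have : Nat.clog 2 n ≤ (Nat.clog 2 n).pred + 1 := by
        rw [Nat.pred_eq_sub_one]; omega
      exact_mod_cast this
    linarith
  · have h1 : Nat.clog 2 n = 0 := Nat.clog_of_right_le_one h 2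
    rw [h1]
    push_cast
    linarith

theorem ev_poly {s : ℝ} (hs : 0 < s) (C : ℝ) (hC : 0 < C) :
    ∀ᶠ m : ℕ in atTop, C * Real.logb 2 m ^ 6 ≤ (m : ℝ) ^ s := by
  have hl2 : 0 < Real.log 2 := Real.log_pos (by norm_num)
  have h1 := (isLittleO_log_rpow_rpow_atTop (6 : ℝ) hs).bound
    (show 0 < Real.log 2 ^ 6 / C by positivity)
  have h2 := tendsto_natCast_atTop_atTop (R := ℝ) |>.eventually h1
  filter_upwards [h2, eventually_ge_atTop 1] with m h3 h4
  have hm1 : (1 : ℝ) ≤ m := by exact_mod_cast h4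
  have hlog : 0 ≤ Real.log m := Real.log_nonneg hm1
  rw [Real.norm_eq_abs, Real.norm_eq_abs, abs_of_nonneg (Real.rpow_nonneg hlog _),
    abs_of_nonneg (Real.rpow_nonneg (show (0 : ℝ) ≤ m by linarith) _)] at h3
  have h5 : Real.log m ^ (6 : ℝ) = Real.log m ^ 6 := by
    rw [← Real.rpow_natCast]; norm_num
  rw [h5] at h3
  unfold Real.logb
  rw [div_pow, mul_div_assoc', div_le_iff₀ (by positivity)]
  rw [div_mul_eq_mul_div, le_div_iff₀ hC] at h3
  linarith

theorem tendsto_logb : Tendsto (fun m : ℕ => Real.logb 2 m) atTop atTop :=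
  (Real.tendsto_logb_atTop (by norm_num)).comp tendsto_natCast_atTop_atTop

theorem asym (δ ε : ℝ) (hε0 : 0 < ε) (hεδ : ε ≤ δ) (hδ1 : δ ≤ 1) : ∀ᶠ m : ℕ in atTop,
    ∀ (T : ℕ) (L : Finset (Fin T)), 2 ≤ L.card → L.card ≤ m → ∀ (S e len : ℕ)
      {Ω : Type} [Fintype Ω] (μ : Ω → ℝ), (∀ ω, 0 ≤ μ ω) → ∑ ω, μ ω = 1 →
      ∀ {Q : Ω → Type} [∀ ω, Preorder (Q ω)] (M : (ω : Ω) → Machine (Edge T m) (Q ω)),
      (∀ ω, (M ω).MonoIn {e | e.1 ∈ L}) → (∀ ω, SpaceLE (Q ω) S) → (∀ ω, (M ω).len ≤ len) →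
      (S : ℝ) ≤ (m : ℝ) ^ (1 - δ) → (2 : ℝ) ^ e ≤ (m : ℝ) ^ (ε / 8) →
      (∀ x x' : Edge T m → Bool, conn x = true → uconn x' = false →
        (∑ ω, if (M ω).out x' = true then μ ω else 0) + 1 / 2 ^ e ≤
          ∑ ω, if (M ω).out x = true then μ ω else 0) →
      (L.card : ℝ) ^ ((δ - ε) * Real.logb 2 m) ≤ len := by
  filter_upwards [ev_poly (show 0 < 3 * ε / 8 by positivity) 2882 (by norm_num),
    ev_poly (show (0 : ℝ) < 1 by norm_num) 6 (by norm_num),
    tendsto_logb.eventually (eventually_gt_atTop (40 / ε)),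
    eventually_ge_atTop 2] with m h1 h2 h3 h4
  intro T L hL2 hLm S e len Ω _ μ hμ0 hμ1 Q _ M hM hQ hlen hS he hadv
  by_contra hcon
  push Not at hcon
  set y := Real.logb 2 m with hy
  have hm2 : (2 : ℝ) ≤ m := by exact_mod_cast h4
  have hm0 : (0 : ℝ) < m := by linarith
  have hδ0 : 0 < δ := by linarith
  have hεy : 40 < ε * y := by
    rw [div_lt_iff₀ hε0] at h3
    linarith
  have hy0' : 0 < y := by
    by_contra hc
    push Not at hc
    nlinarith
  have hy40 : 40 < y := by nlinarith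
  have hδε : 0 ≤ δ - ε := by linarith
  have hmy : (m : ℝ) = 2 ^ y := by
    rw [hy, Real.rpow_logb (by norm_num) (by norm_num) hm0]
  rw [Real.rpow_one] at h2
  -- the parameters
  obtain ⟨r, hr⟩ : ∃ r, r = Nat.clog 2 len := ⟨_, rfl⟩
  obtain ⟨c, hc⟩ : ∃ c, c = Nat.clog 2 L.card := ⟨_, rfl⟩
  have hc1 : 1 ≤ c := by
    rw [hc]
    exact Nat.clog_pos (by norm_num) (by omega)
  obtain ⟨q, hq⟩ : ∃ q, c = q + 1 := ⟨c - 1, by omega⟩
  set z := Real.logb 2 (L.card : ℝ) with hz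
  have hL2' : (2 : ℝ) ≤ L.card := by exact_mod_cast hL2
  have hz1 : 1 ≤ z := by
    rw [hz, Real.le_logb_iff_rpow_le (by norm_num) (by linarith), Real.rpow_one]
    exact hL2'
  have hzy : z ≤ y := by
    rw [hz, hy]
    exact Real.logb_le_logb_of_le (by norm_num) (by linarith) (by exact_mod_cast hLm)
  have hzq : z ≤ q + 1 := by
    have h5 : L.card ≤ 2 ^ (q + 1) := by
      rw [← hq, hc]; exact Nat.le_pow_clog (by norm_num) _
    rw [hz, Real.logb_le_iff_le_rpow (by norm_num) (by linarith)]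
    have h6 : (2 : ℝ) ^ ((q : ℝ) + 1) = 2 ^ (q + 1) := by
      rw [← Real.rpow_natCast]; push_cast; rfl
    rw [h6]
    exact_mod_cast h5
  have hqlt : 2 ^ q < L.card := by
    have h5 := Nat.pow_pred_clog_lt_self (b := 2) (by norm_num) (show 1 < L.card by omega)
    rw [← hc, hq] at h5
    simpa using h5
  have hqz : (q : ℝ) ≤ z := by
    rw [hz, Real.le_logb_iff_rpow_le (by norm_num) (by linarith), Real.rpow_natCast]
    exact_mod_cast hqlt.le
  have hrz : (r : ℝ) ≤ (δ - ε) * y * z + 1 := by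
    rcases Nat.eq_zero_or_pos len with h5 | h5
    · rw [hr, h5]
      simp only [Nat.clog_zero_right, Nat.cast_zero]
      positivity
    · have h6 := clog_le_logb h5
      rw [← hr] at h6
      have hlen0 : (0 : ℝ) < len := by exact_mod_cast h5
      have h7 : Real.logb 2 len < (δ - ε) * y * z := by
        rw [Real.logb_lt_iff_lt_rpow (by norm_num) hlen0]
        calc (len : ℝ) < (L.card : ℝ) ^ ((δ - ε) * y) := hcon
          _ = (2 ^ z) ^ ((δ - ε) * y) := by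
              rw [hz, Real.rpow_logb (by norm_num) (by norm_num) (by linarith)]
          _ = 2 ^ ((δ - ε) * y * z) := by
              rw [← Real.rpow_mul (by norm_num)]
              congr 1; ring
      linarith
  have hlenr : len ≤ 2 ^ r := by
    rw [hr]; exact Nat.le_pow_clog (by norm_num) _
  have hey : (e : ℝ) ≤ ε / 8 * y := by
    have h5 : Real.logb 2 ((2 : ℝ) ^ e) ≤ Real.logb 2 ((m : ℝ) ^ (ε / 8)) :=
      Real.logb_le_logb_of_le (by norm_num) (by positivity) he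
    rw [Real.logb_pow, Real.logb_self_eq_one (by norm_num), mul_one,
      Real.logb_rpow_eq_mul_logb_of_pos hm0] at h5
    exact h5
  have hyz : y * z ≤ y ^ 2 := by nlinarith
  have hδyz : (δ - ε) * y * z ≤ y ^ 2 := by
    have h5 : 0 ≤ y * z := by positivity
    calc (δ - ε) * y * z = (δ - ε) * (y * z) := by ring
      _ ≤ 1 * (y * z) := mul_le_mul_of_nonneg_right (by linarith) h5
      _ ≤ y ^ 2 := by linarith
  have hy2 : (1 : ℝ) ≤ y ^ 2 := one_le_pow₀ (by linarith)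
  have hr1 : (r : ℝ) ≤ 2 * y ^ 2 := by linarith
  -- the space
  set K := 2 * (r + 1) with hK
  have hSm : (S : ℝ) ≤ m := by
    refine hS.trans ?_
    calc (m : ℝ) ^ (1 - δ) ≤ (m : ℝ) ^ (1 : ℝ) :=
          Real.rpow_le_rpow_of_exponent_le (by linarith) (by linarith)
      _ = m := Real.rpow_one _
  have hSK : ((S * K + 1 : ℕ) : ℝ) ≤ (m : ℝ) ^ (2 : ℕ) := by
    push_cast
    rw [hK]
    push_cast
    have h5 : (S : ℝ) * (2 * (r + 1)) + 1 ≤ m * (2 * (2 * y ^ 2 + 1)) + 1 := by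
      have h6 : (S : ℝ) * (2 * (r + 1)) ≤ m * (2 * (2 * y ^ 2 + 1)) :=
        mul_le_mul hSm (by linarith) (by positivity) (by linarith)
      linarith
    have h6 : 6 * y ^ 2 ≤ 6 * y ^ 6 := by
      have : y ^ 2 ≤ y ^ 6 := pow_le_pow_right₀ (by linarith) (by norm_num)
      linarith
    have h7 : 2 * (2 * y ^ 2 + 1) + 1 ≤ m := by nlinarith
    have h8 : (m : ℝ) * (2 * (2 * y ^ 2 + 1)) + 1 ≤ m * (2 * (2 * y ^ 2 + 1) + 1) := by linarith
    have h9 : (m : ℝ) * (2 * (2 * y ^ 2 + 1) + 1) ≤ m * m :=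
      mul_le_mul_of_nonneg_left h7 (by linarith)
    rw [sq]
    linarith
  have hclog : (Nat.clog 2 (S * K + 1) : ℝ) ≤ 3 * y := by
    have h5 := clog_le_logb (show 1 ≤ S * K + 1 by omega)
    have h6 : Real.logb 2 ((S * K + 1 : ℕ) : ℝ) ≤ Real.logb 2 ((m : ℝ) ^ (2 : ℕ)) :=
      Real.logb_le_logb_of_le (by norm_num) (by positivity) hSK
    rw [Real.logb_pow, ← hy] at h6
    push_cast at h6
    push_cast at h5
    linarith
  set σ := S * Nat.clog 2 (S * K + 1) with hσ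
  set m' := (m : ℝ) ^ (1 - δ) with hm'
  have hm'1 : 1 ≤ m' := Real.one_le_rpow (by linarith) (by linarith)
  have hσ' : (σ : ℝ) ≤ m' * (3 * y) := by
    rw [hσ]
    push_cast
    exact mul_le_mul hS hclog (by positivity) (by linarith)
  -- the density
  obtain ⟨ρ, hρ⟩ : ∃ ρ, ρ = 64 * 2 ^ e * (r + 1) * (q + (σ + 2) * r + e + 3) * q + 2 := ⟨_, rfl⟩
  have hy0 : (0 : ℝ) < y := by linarith
  have hy1 : (1 : ℝ) ≤ y := by linarith
  have hmid : ((q + (σ + 2) * r + e + 3 : ℕ) : ℝ) ≤ 15 * (y ^ 3 * m') := by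
    push_cast
    have hq1 : (q : ℝ) ≤ y := hqz.trans hzy
    have he1 : (e : ℝ) ≤ y := by nlinarith
    have h5 : ((σ : ℝ) + 2) * r ≤ (m' * (3 * y) + 2) * (2 * y ^ 2) :=
      mul_le_mul (by linarith) hr1 (by positivity) (by positivity)
    have h6 : y ≤ y ^ 3 * m' := by
      calc y = y ^ 1 * 1 := by ring
        _ ≤ y ^ 3 * m' := mul_le_mul (pow_le_pow_right₀ hy1 (by norm_num)) hm'1 (by norm_num)
            (by positivity)
    have h7 : y ^ 2 ≤ y ^ 3 * m' := by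
      calc y ^ 2 = y ^ 2 * 1 := by ring
        _ ≤ y ^ 3 * m' := mul_le_mul (pow_le_pow_right₀ hy1 (by norm_num)) hm'1 (by norm_num)
            (by positivity)
    have h8 : (m' * (3 * y) + 2) * (2 * y ^ 2) = 6 * (y ^ 3 * m') + 4 * y ^ 2 := by ring
    have h9 : (1 : ℝ) ≤ y ^ 3 * m' := by linarith
    linarith
  have hρ' : (ρ : ℝ) ≤ 2882 * y ^ 6 * ((m : ℝ) ^ (ε / 8) * m') := by
    rw [hρ]
    have h5 : ((64 * 2 ^ e * (r + 1) * (q + (σ + 2) * r + e + 3) * q + 2 : ℕ) : ℝ) =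
        64 * 2 ^ e * (r + 1) * ((q + (σ + 2) * r + e + 3 : ℕ) : ℝ) * q + 2 := by push_cast; ring
    rw [h5]
    have h6 : ((r : ℝ) + 1) ≤ 3 * y ^ 2 := by nlinarith
    have h7 : (q : ℝ) ≤ y := hqz.trans hzy
    have h8 : (64 : ℝ) * 2 ^ e * (r + 1) * ((q + (σ + 2) * r + e + 3 : ℕ) : ℝ) * q ≤
        64 * (m : ℝ) ^ (ε / 8) * (3 * y ^ 2) * (15 * (y ^ 3 * m')) * y := by
      refine mul_le_mul (mul_le_mul (mul_le_mul (mul_le_mul_of_nonneg_left he (by norm_num))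
        h6 (by positivity) (by positivity)) hmid (by positivity) (by positivity)) h7
        (by positivity) (by positivity)
    have h9 : 64 * (m : ℝ) ^ (ε / 8) * (3 * y ^ 2) * (15 * (y ^ 3 * m')) * y =
        2880 * (y ^ 6 * ((m : ℝ) ^ (ε / 8) * m')) := by ring
    have h10 : (1 : ℝ) ≤ y ^ 6 * ((m : ℝ) ^ (ε / 8) * m') := by
      have h11 : (1 : ℝ) ≤ (m : ℝ) ^ (ε / 8) := Real.one_le_rpow (by linarith) (by positivity)
      have h12 : (1 : ℝ) ≤ y ^ 6 := one_le_pow₀ hy1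
      have h13 : (1 : ℝ) ≤ (m : ℝ) ^ (ε / 8) * m' := by nlinarith
      nlinarith
    linarith
  -- the number κ
  obtain ⟨κ, hκ⟩ : ∃ κ, κ = ⌊(m : ℝ) ^ (δ - ε / 2)⌋₊ := ⟨_, rfl⟩
  have hκle : (κ : ℝ) ≤ (m : ℝ) ^ (δ - ε / 2) := by
    rw [hκ]; exact Nat.floor_le (by positivity)
  have hκge : (2 : ℝ) ^ ((δ - ε / 2) * y - 1) ≤ κ := by
    have h5 : (m : ℝ) ^ (δ - ε / 2) = 2 ^ ((δ - ε / 2) * y) := by
      rw [hmy, ← Real.rpow_mul (by norm_num)]
      congr 1; ring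
    have h6 : (m : ℝ) ^ (δ - ε / 2) < κ + 1 := by
      rw [hκ]; exact Nat.lt_floor_add_one _
    have h7 : (2 : ℝ) ^ ((δ - ε / 2) * y) = 2 * 2 ^ ((δ - ε / 2) * y - 1) := by
      rw [Real.rpow_sub (by norm_num), Real.rpow_one]; ring
    have h8 : (1 : ℝ) ≤ 2 ^ ((δ - ε / 2) * y - 1) := by
      refine Real.one_le_rpow (by norm_num) ?_
      nlinarith
    rw [h5, h7] at h6
    linarith
  have hκρ : κ * ρ ≤ m := by
    have h5 : (κ : ℝ) * ρ ≤ m := by
      calc (κ : ℝ) * ρ ≤ (m : ℝ) ^ (δ - ε / 2) * (2882 * y ^ 6 * ((m : ℝ) ^ (ε / 8) * m')) :=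
            mul_le_mul hκle hρ' (by positivity) (by positivity)
        _ = (2882 * y ^ 6) * ((m : ℝ) ^ (δ - ε / 2) * ((m : ℝ) ^ (ε / 8) * m')) := by ring
        _ ≤ (m : ℝ) ^ (3 * ε / 8) * ((m : ℝ) ^ (δ - ε / 2) * ((m : ℝ) ^ (ε / 8) * m')) :=
            mul_le_mul_of_nonneg_right h1 (by positivity)
        _ = (m : ℝ) ^ (1 : ℝ) := by
            rw [hm', ← Real.rpow_add hm0, ← Real.rpow_add hm0, ← Real.rpow_add hm0]
            congr 1; ring
        _ = m := Real.rpow_one _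
    exact_mod_cast h5
  have hκq : 2 ^ (r + e + 3) < κ ^ (q + 1) := by
    have h5 : (2 : ℝ) ^ (r + e + 3) < (κ : ℝ) ^ (q + 1) := by
      have h6 : ((2 : ℝ) ^ ((δ - ε / 2) * y - 1)) ^ (q + 1) ≤ (κ : ℝ) ^ (q + 1) :=
        pow_le_pow_left₀ (by positivity) hκge _
      refine lt_of_lt_of_le ?_ h6
      rw [← Real.rpow_natCast, ← Real.rpow_natCast, ← Real.rpow_mul (by norm_num)]
      refine Real.rpow_lt_rpow_of_exponent_lt (by norm_num) ?_
      push_cast
      have h7 : (δ - ε) * y * z ≤ (δ - ε) * y * (q + 1) :=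
        mul_le_mul_of_nonneg_left hzq (mul_nonneg hδε hy0'.le)
      have h8 : (ε / 2 * y - 1) * 1 ≤ (ε / 2 * y - 1) * (q + 1) := by
        refine mul_le_mul_of_nonneg_left ?_ (by linarith)
        have : (0 : ℝ) ≤ q := by positivity
        linarith
      have h9 : ((δ - ε / 2) * y - 1) * (q + 1) =
          (δ - ε) * y * (q + 1) + (ε / 2 * y - 1) * (q + 1) := by
        ring
      rw [h9]
      linarith
    exact_mod_cast h5
  have hfin := conn_random L μ hμ0 hμ1 M hM (by omega) (by omega) hadv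
    (fun ω => (hQ ω).simple (K := K) (by omega)) (fun ω => (hlen ω).trans hlenr) hκq
    (ρ := ρ) (by rw [hρ]; exact Nat.le_add_right _ _) (by rw [hρ]; exact Nat.le_add_left _ _) hκρ
  omega

end Pool.Agent.HM94.NL
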