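import Pool.Agent.HM94.NL.CoreK
import Pool.Agent.HM94.MSC.Clean

/-!
# Dense pieces and good rows
-/

set_option autoImplicit false
set_option linter.unusedSectionVars false

namespace Pool.Agent.HM94.NL

open Finset Pool.Agent.HM94.MSC

variable {V : Type*} [Fintype V] [DecidableEq V] {m : ℕ}

/-- A nonempty set contains a dense piece. -/
theorem piece {r : ℕ} (hr : 0 < r) (I : Finset V) {X : Finset (V → Fin m)} (hX : X.Nonempty) :
    ∃ (J : Finset V) (P : Finset (V → Fin m)) (a : V → Fin m),
      Disjoint J I ∧ P ⊆ X ∧ a ∈ P ∧ (∀ x ∈ P, ∀ v ∈ J, x v = a v) ∧ Dense r (I ∪ J) P ∧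
      X.card ≤ P.card * r ^ J.card := by
  classical
  have hXpos : 0 < X.card := hX.card_pos
  obtain ⟨x0, hx0⟩ := card_pos.1 hXpos
  set Cd : Finset (Finset V × (V → Fin m)) := univ.filter (fun q => Disjoint q.1 I ∧
    X.card ≤ (X.filter (fun x => ∀ v ∈ q.1, x v = q.2 v)).card * r ^ q.1.card) with hCd
  have hCn : Cd.Nonempty := by
    refine ⟨(∅, x0), ?_⟩
    rw [hCd, mem_filter]
    refine ⟨mem_univ _, disjoint_empty_left _, ?_⟩
    simp
  obtain ⟨⟨J, a⟩, hJa, hmax⟩ := exists_max_image Cd (fun q => q.1.card) hCn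
  rw [hCd, mem_filter] at hJa
  have hJI : Disjoint J I := hJa.2.1
  have hJa1 : X.card ≤ (X.filter (fun x => ∀ v ∈ J, x v = a v)).card * r ^ J.card := hJa.2.2
  set P := X.filter (fun x => ∀ v ∈ J, x v = a v) with hP
  have hPpos : 0 < P.card := by
    by_contra h
    have : P.card = 0 := by omega
    rw [this, zero_mul] at hJa1
    omega
  have hdense : Dense r (I ∪ J) P := by
    intro S hS b
    by_cases hSe : S = ∅
    · subst hSe
      simp
    have hSI : Disjoint S I := disjoint_of_subset_right subset_union_left hS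
    have hSJ : Disjoint S J := disjoint_of_subset_right subset_union_right hS
    have hSpos : 0 < S.card := card_pos.2 (nonempty_iff_ne_empty.2 hSe)
    set ab : V → Fin m := fun v => if v ∈ S then b v else a v with hab
    have hfe : P.filter (fun x => ∀ v ∈ S, x v = b v)
        = X.filter (fun x => ∀ v ∈ J ∪ S, x v = ab v) := by
      ext x
      rw [hP, mem_filter, mem_filter, mem_filter]
      constructor
      · rintro ⟨⟨h1, h2⟩, h3⟩
        refine ⟨h1, fun v hv => ?_⟩
        rw [hab]
        simp only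
        split_ifs with hvS
        · exact h3 v hvS
        · rcases mem_union.1 hv with h | h
          · exact h2 v h
          · exact absurd h hvS
      · rintro ⟨h1, h2⟩
        refine ⟨⟨h1, fun v hv => ?_⟩, fun v hv => ?_⟩
        · have h3 := h2 v (mem_union_left _ hv)
          rw [hab] at h3
          simp only at h3
          rw [if_neg (fun h => disjoint_left.1 hSJ h hv)] at h3
          exact h3
        · have h3 := h2 v (mem_union_right _ hv)
          rw [hab] at h3
          simp only at h3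
          rw [if_pos hv] at h3
          exact h3
    have hcard : (J ∪ S).card = J.card + S.card :=
      card_union_of_disjoint hSJ.symm
    have hnot : ¬ X.card ≤ (P.filter (fun x => ∀ v ∈ S, x v = b v)).card * r ^ (J.card + S.card) := by
      intro h
      have h1 : (J ∪ S, ab) ∈ Cd := by
        rw [hCd, mem_filter]
        refine ⟨mem_univ _, ?_, ?_⟩
        · exact disjoint_union_left.2 ⟨hJI, hSI⟩
        · simp only
          rw [← hfe, hcard]
          exact h
      have h2 := hmax _ h1
      simp only at h2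
      rw [hcard] at h2
      omega
    have h3 : (P.filter (fun x => ∀ v ∈ S, x v = b v)).card * r ^ S.card * r ^ J.card
        ≤ P.card * r ^ J.card := by
      calc (P.filter (fun x => ∀ v ∈ S, x v = b v)).card * r ^ S.card * r ^ J.card
          = (P.filter (fun x => ∀ v ∈ S, x v = b v)).card * r ^ (J.card + S.card) := by
            rw [pow_add]; ring
        _ ≤ X.card := by omega
        _ ≤ P.card * r ^ J.card := hJa1
    exact Nat.le_of_mul_le_mul_right h3 (pow_pos hr _)
  obtain ⟨a', ha'⟩ := card_pos.1 hPpos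
  refine ⟨J, P, a', hJI, filter_subset _ _, ha', fun x hx v hv => ?_, hdense, hJa1⟩
  rw [hP, mem_filter] at hx ha'
  rw [hx.2 v hv, ha'.2 v hv]

/-- For most rows of a dense set all small patterns are frequent. -/
theorem good_rows {r d p K : ℕ} (hK : 1 ≤ K) (hp : 1 ≤ p) (hr0 : 0 < r)
    {X : Finset (V → Fin m)} {I : Finset V} (hd : Dense r I X) (hr : 32 * K * p * d ≤ r)
    (Y : Finset (V × Fin m → Bool)) (hY : 2 * 2 ^ (Fintype.card V * m) ≤ Y.card * 2 ^ p) :
    ∃ G ⊆ X, (X \ G).card * K ≤ X.card ∧ ∀ x ∈ G, ∀ J : Finset V, Disjoint J I → J.card ≤ d →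
      ∀ z : V → Bool, ∃ Y1 ⊆ Y, (∀ y ∈ Y1, ∀ v ∈ J, y (v, x v) = z v) ∧
        Y.card ≤ 4 * 2 ^ J.card * Y1.card := by
  classical
  set G := X.filter (fun x => ∀ J : Finset V, Disjoint J I → J.card ≤ d →
      ∀ z : V → Bool, Y.card ≤ 4 * 2 ^ J.card *
        (Y.filter (fun y => ∀ v ∈ J, y (v, x v) = z v)).card) with hG
  refine ⟨G, filter_subset _ _, ?_, fun x hx J h1 h2 z => ⟨_, filter_subset _ _,
    fun y hy => (mem_filter.1 hy).2, (mem_filter.1 hx).2 J h1 h2 z⟩⟩
  by_contra hcon
  push Not at hcon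
  have hB : ∀ x ∈ X \ G, ∃ J : Finset V, Disjoint J I ∧ J.card ≤ d ∧ ∃ z : V → Bool,
      ¬ (Y.card ≤ 4 * 2 ^ J.card * (Y.filter (fun y => ∀ v ∈ J, y (v, x v) = z v)).card) := by
    intro x hx
    rw [mem_sdiff, hG, mem_filter, not_and] at hx
    have h1 := hx.2 hx.1
    push Not at h1
    obtain ⟨J, h2, h3, z, h4⟩ := h1
    exact ⟨J, h2, h3, z, by omega⟩
  have hBn : (X \ G).Nonempty := by
    rw [← card_pos]
    by_contra h
    have : (X \ G).card = 0 := by omega
    rw [this] at hcon
    omega
  have hB' : ∀ x : V → Fin m, ∃ (J : Finset V) (z : V → Bool), x ∈ X \ G →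
      (Disjoint J I ∧ J.card ≤ d ∧
      ¬ (Y.card ≤ 4 * 2 ^ J.card * (Y.filter (fun y => ∀ v ∈ J, y (v, x v) = z v)).card)) := by
    intro x
    by_cases hx : x ∈ X \ G
    · obtain ⟨J, h1, h2, z, h3⟩ := hB x hx
      exact ⟨J, z, fun _ => ⟨h1, h2, h3⟩⟩
    · exact ⟨∅, fun _ => true, fun h => absurd h hx⟩
  choose J z hJz using hB'
  obtain ⟨x, hx, hY'⟩ := core2K hK hp hr0 (P := X) (Q := X \ G) sdiff_subset
    (by rw [mul_comm]; exact hcon.le) hBn hd (J := J) (fun x hx => (hJz x hx).1)
    (fun x hx => (hJz x hx).2.1) z hr Y hY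
  exact (hJz x hx).2.2 hY'

/-- A constant block of a dense set belongs to the fixed blocks. -/
theorem dense_const {r : ℕ} (hr2 : 2 ≤ r) {I : Finset V} {P : Finset (V → Fin m)}
    (hP : P.Nonempty) (hd : Dense r I P) {v : V} {c : Fin m} (hc : ∀ x ∈ P, x v = c) : v ∈ I := by
  by_contra hvI
  have h1 := hd {v} (by simpa using hvI) (fun _ => c)
  have h2 : P.filter (fun x => ∀ w ∈ ({v} : Finset V), x w = c) = P := by
    refine filter_true_of_mem fun x hx w hw => ?_
    rw [mem_singleton] at hw
    subst hw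
    exact hc x hx
  rw [h2, card_singleton, pow_one] at h1
  have h3 : 0 < P.card := hP.card_pos
  have h4 : P.card * 2 ≤ P.card * r := Nat.mul_le_mul_left _ hr2
  omega

theorem card_le_of_agree (I : Finset V) (a : V → Fin m) {P : Finset (V → Fin m)}
    (h : ∀ x ∈ P, ∀ v ∈ I, x v = a v) : P.card ≤ m ^ (Fintype.card V - I.card) := by
  rw [← card_agree_le I a]
  exact card_le_card fun x hx => mem_filter.2 ⟨mem_univ _, h x hx⟩

theorem dense_univ {r : ℕ} (hr : r ≤ m) : Dense r ∅ (univ : Finset (V → Fin m)) := by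
  intro S _ a
  rw [card_agree_le, card_univ, Fintype.card_fun, Fintype.card_fin]
  have h1 : S.card ≤ Fintype.card V := card_le_univ S
  calc m ^ (Fintype.card V - S.card) * r ^ S.card
      ≤ m ^ (Fintype.card V - S.card) * m ^ S.card :=
        Nat.mul_le_mul_left _ (Nat.pow_le_pow_left hr _)
    _ = m ^ Fintype.card V := by rw [← pow_add]; congr 1; omega

/-- Gaps between a few points. -/
theorem gap (K : Finset ℕ) (g h : ℕ) (hh : 1 ≤ h) : ∃ g' h' : ℕ, g ≤ g' ∧ g' + h' ≤ g + h ∧
    1 ≤ h' ∧ h ≤ h' * 2 ^ K.card ∧ ∀ v ∈ K, v ≤ g' ∨ g' + h' ≤ v := by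
  induction K using Finset.induction_on with
  | empty => exact ⟨g, h, le_rfl, le_rfl, hh, by simp, by simp⟩
  | insert v K hv ih =>
    obtain ⟨g', h', h1, h2, h3, h4, h5⟩ := ih
    rw [card_insert_of_notMem hv, pow_succ]
    by_cases hin : v ≤ g' ∨ g' + h' ≤ v
    · refine ⟨g', h', h1, h2, h3, ?_, ?_⟩
      · calc h ≤ h' * 2 ^ K.card := h4
          _ ≤ h' * (2 ^ K.card * 2) := Nat.mul_le_mul_left _ (by omega)
      · intro u hu
        rcases mem_insert.1 hu with rfl | hu
        · exact hin
        · exact h5 u hu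
    · push Not at hin
      by_cases hbig : h' ≤ 2 * (v - g')
      · refine ⟨g', v - g', h1, by omega, by omega, ?_, ?_⟩
        · calc h ≤ h' * 2 ^ K.card := h4
            _ ≤ 2 * (v - g') * 2 ^ K.card := Nat.mul_le_mul_right _ hbig
            _ = (v - g') * (2 ^ K.card * 2) := by ring
        · intro u hu
          rcases mem_insert.1 hu with rfl | hu
          · right; omega
          · rcases h5 u hu with h | h
            · left; exact h
            · right; omega
      · refine ⟨v, g' + h' - v, by omega, by omega, by omega, ?_, ?_⟩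
        · calc h ≤ h' * 2 ^ K.card := h4
            _ ≤ 2 * (g' + h' - v) * 2 ^ K.card := Nat.mul_le_mul_right _ (by omega)
            _ = (g' + h' - v) * (2 ^ K.card * 2) := by ring
        · intro u hu
          rcases mem_insert.1 hu with rfl | hu
          · left; exact le_rfl
          · rcases h5 u hu with h | h
            · left; omega
            · right; omega

end Pool.Agent.HM94.NL
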