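import Pool.Agent.HM94.MSC.Hard
import Pool.Agent.HM94.NL.Piece

/-!
# Layered reachability and its hard inputs

Only the edges of the layers in `L` vary; in the other layers there are the edges `a → a`.
-/

set_option autoImplicit false

namespace Pool.Agent.HM94.NL

open Finset Pool.Agent.HM94.MSC

/-- The possible edges of a graph with the `T + 1` levels `0, …, T` of `m` vertices each: the edge
`(t, a, b)` leads from the vertex `a` of the level `t` to the vertex `b` of the level `t + 1`. -/
abbrev Edge (T m : ℕ) : Type := Fin T × Fin m × Fin m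

open Classical in
/-- Directed reachability: is there a path from the level `0` to the level `T`? -/
noncomputable def conn {T m : ℕ} (x : Edge T m → Bool) : Bool :=
  decide (∃ v : Fin (T + 1) → Fin m, ∀ t : Fin T, x (t, v t.castSucc, v t.succ) = true)

/-- There is an edge from the vertex `u` to the vertex `v`. -/
def Step {T m : ℕ} (x : Edge T m → Bool) (u v : Fin (T + 1) × Fin m) : Prop :=
  ∃ t : Fin T, u.1 = t.castSucc ∧ v.1 = t.succ ∧ x (t, u.2, v.2) = true

open Classical in
/-- Undirected reachability: is there a path from the level `0` to the level `T` if all edges can be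
used in both directions? -/
noncomputable def uconn {T m : ℕ} (x : Edge T m → Bool) : Bool :=
  decide (∃ a b : Fin m, Relation.EqvGen (Step x) (0, a) (Fin.last T, b))

theorem uconn_of_conn {T m : ℕ} {x : Edge T m → Bool} (h : conn x = true) : uconn x = true := by
  classical
  unfold conn at h
  unfold uconn
  rw [decide_eq_true_eq] at h
  rw [decide_eq_true_eq]
  obtain ⟨v, hv⟩ := h
  have hall : ∀ t (ht : t ≤ T),
      Relation.EqvGen (Step x) (0, v 0) (⟨t, by omega⟩, v ⟨t, by omega⟩) := by
    intro t
    induction t with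
    | zero => intro _; exact Relation.EqvGen.refl _
    | succ t ih =>
      intro ht
      refine (ih (by omega)).trans _ _ _ (Relation.EqvGen.rel _ _ ⟨⟨t, by omega⟩, rfl, rfl, ?_⟩)
      exact hv ⟨t, by omega⟩
  exact ⟨v 0, v (Fin.last T), hall T le_rfl⟩

section hard

variable {T m : ℕ} (L : Finset (Fin T))

/-- The node `u`. -/
def no (R u : ℕ) : Fin (R + 1) := Fin.ofNat (R + 1) u

theorem no_val {R u : ℕ} (h : u ≤ R) : ((no R u : Fin (R + 1)) : ℕ) = u := by
  unfold no
  simp only [Fin.ofNat]
  exact Nat.mod_eq_of_lt (by omega)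

/-- The positive input of a row. -/
def alp (x : Fin (L.card + 1) → Fin m) (e : Edge T m) : Bool :=
  if e.1 ∈ L then
    decide (x (no L.card (rk L e.1)) = e.2.1 ∧ x (no L.card (rk L e.1 + 1)) = e.2.2)
  else decide (e.2.1 = e.2.2)

/-- The sides of the vertices: the first level is reached, the last one is not. -/
def bd (y : Fin (L.card + 1) × Fin m → Bool) (u : ℕ) (a : Fin m) : Bool :=
  if u = 0 then true else if u = L.card then false else y (no L.card u, a)

/-- The negative input of a column: all edges between vertices of the same side. -/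
def bet (y : Fin (L.card + 1) × Fin m → Bool) (e : Edge T m) : Bool :=
  if e.1 ∈ L then decide (bd L y (rk L e.1) e.2.1 = bd L y (rk L e.1 + 1) e.2.2)
  else decide (e.2.1 = e.2.2)

theorem conn_alp (x : Fin (L.card + 1) → Fin m) : conn (alp L x) = true := by
  unfold conn
  rw [decide_eq_true_eq]
  refine ⟨fun t => x (no L.card (rk L t)), fun t => ?_⟩
  unfold alp
  simp only [Fin.val_castSucc, Fin.val_succ]
  by_cases ht : t ∈ L
  · rw [if_pos ht, decide_eq_true_eq]
    have h1 : rk L ((t : ℕ) + 1) = rk L t + 1 := rk_succ_mem L t.2 ht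
    rw [h1]
    exact ⟨trivial, rfl⟩
  · rw [if_neg ht, decide_eq_true_eq]
    rw [rk_succ_notMem L t.2 ht]

theorem uconn_bet (hL : L.card ≠ 0) (y : Fin (L.card + 1) × Fin m → Bool) :
    uconn (bet L y : Edge T m → Bool) = false := by
  classical
  unfold uconn
  rw [decide_eq_false_iff_not]
  rintro ⟨a, b, hab⟩
  have hall : ∀ u v : Fin (T + 1) × Fin m, Relation.EqvGen (Step (bet L y : Edge T m → Bool)) u v →
      bd L y (rk L u.1) u.2 = bd L y (rk L v.1) v.2 := by
    intro u v huv
    induction huv with
    | rel u v h =>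
      obtain ⟨t, h1, h2, h3⟩ := h
      rw [h1, h2, Fin.val_castSucc, Fin.val_succ]
      unfold bet at h3
      simp only at h3
      by_cases ht : t ∈ L
      · rw [if_pos ht, decide_eq_true_eq] at h3
        have h4 : rk L ((t : ℕ) + 1) = rk L t + 1 := rk_succ_mem L t.2 ht
        rw [h4]
        exact h3
      · rw [if_neg ht, decide_eq_true_eq] at h3
        have h4 : rk L ((t : ℕ) + 1) = rk L t := rk_succ_notMem L t.2 ht
        rw [h4, h3]
    | refl u => rfl
    | symm u v _ ih => exact ih.symm
    | trans u v w _ _ ih1 ih2 => exact ih1.trans ih2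
  have h1 : bd L y (rk L 0) a = bd L y (rk L T) b := hall _ _ hab
  have h2 : bd L y (rk L 0) a = true := by
    unfold bd
    rw [if_pos (rk_zero L)]
  have h3 : bd L y (rk L T) b = false := by
    unfold bd
    rw [rk_top, if_neg hL, if_pos rfl]
  rw [h2, h3] at h1
  exact absurd h1 (by simp)

theorem alp_outside {e : Edge T m} (he : e.1 ∉ L) (x : Fin (L.card + 1) → Fin m)
    (y : Fin (L.card + 1) × Fin m → Bool) : alp L x e = bet L y e := by
  unfold alp bet
  rw [if_neg he, if_neg he]

/-- At a distinguishing input the gap is closed. -/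
theorem leaf {r : ℕ} (hr2 : 2 ≤ r) {I : Finset (Fin (L.card + 1))}
    {P : Finset (Fin (L.card + 1) → Fin m)} {x0 : Fin (L.card + 1) → Fin m}
    {y0 : Fin (L.card + 1) × Fin m → Bool} (hx0 : x0 ∈ P) (hd : Dense r I P) {g h : ℕ}
    (hyI : ∀ v ∈ I, y0 (v, x0 v) = decide ((v : ℕ) ≤ g))
    (hhI : ∀ v ∈ I, (v : ℕ) ≤ g ∨ g + h ≤ (v : ℕ)) (hgh : g + h ≤ L.card) (e : Edge T m)
    (hX : ∀ x ∈ P, alp L x e = true) (hy : bet L y0 e = false) : h ≤ 1 := by
  by_contra hh
  obtain ⟨t, a, b⟩ := e
  have heL : t ∈ L := by
    by_contra hc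
    have h1 := hX x0 hx0
    rw [alp_outside L (e := (t, a, b)) hc x0 y0, hy] at h1
    exact absurd h1 (by simp)
  have hxP : ∀ x ∈ P, x (no L.card (rk L t)) = a ∧ x (no L.card (rk L t + 1)) = b := by
    intro x hx
    have h1 := hX x hx
    unfold alp at h1
    simp only at h1
    rw [if_pos heL, decide_eq_true_eq] at h1
    exact h1
  have hu : no L.card (rk L t) ∈ I := dense_const hr2 ⟨x0, hx0⟩ hd fun x hx => (hxP x hx).1
  have hw : no L.card (rk L t + 1) ∈ I := dense_const hr2 ⟨x0, hx0⟩ hd fun x hx => (hxP x hx).2
  obtain ⟨ha, hb⟩ := hxP x0 hx0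
  have hrk : rk L t + 1 ≤ L.card := by
    have h1 := rk_succ_mem L t.2 heL
    have h2 := rk_le L (t + 1)
    have h3 : rk L (t + 1) = rk L t + 1 := h1
    omega
  unfold bet at hy
  simp only at hy
  rw [if_pos heL, decide_eq_false_iff_not] at hy
  apply hy
  have h1 := hyI _ hu
  have h2 := hyI _ hw
  rw [ha, no_val (by omega)] at h1
  rw [hb, no_val hrk] at h2
  have h3 := hhI _ hu
  have h4 := hhI _ hw
  rw [no_val (by omega)] at h3
  rw [no_val hrk] at h4
  rcases h4 with h4 | h4
  · -- both vertices are reached
    have h5 : bd L y0 (rk L t + 1) b = true := by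
      unfold bd
      rw [if_neg (by omega), if_neg (by omega), h2]
      simp only [decide_eq_true_eq]
      omega
    have h6 : bd L y0 (rk L t) a = true := by
      unfold bd
      split_ifs with h7 h8
      · rfl
      · omega
      · rw [h1]
        simp only [decide_eq_true_eq]
        omega
    rw [h5, h6]
  · rcases h3 with h3 | h3
    · omega
    · have h5 : bd L y0 (rk L t) a = false := by
        unfold bd
        rw [if_neg (by omega), if_neg (by omega), h1]
        simp only [decide_eq_false_iff_not]
        omega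
      have h6 : bd L y0 (rk L t + 1) b = false := by
        unfold bd
        rw [if_neg (by omega)]
        split_ifs with h8
        · rfl
        · rw [h2]
          simp only [decide_eq_false_iff_not]
          omega
      rw [h5, h6]

end hard

end Pool.Agent.HM94.NL
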