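import Pool.Agent.HM94.MSC.Core

/-!
# The matching lemma for small parts of dense sets of rows
-/

set_option autoImplicit false

namespace Pool.Agent.HM94.NL

open Finset Pool.Agent.TH661.LPX Pool.Agent.HM94.MSC

variable {V : Type*} [Fintype V] [DecidableEq V] {m : ℕ}

theorem cf_sum_leK {r d p K : ℕ} (hr0 : 0 < r) {P Q : Finset (V → Fin m)} (hQP : Q ⊆ P)
    (hQ : P.card ≤ K * Q.card) (hQn : Q.Nonempty) {I : Finset V} (hd : Dense r I P)
    {J : (V → Fin m) → Finset V} (hJ : ∀ x ∈ Q, Disjoint (J x) I)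
    (hJd : ∀ x ∈ Q, (J x).card ≤ d) (z : (V → Fin m) → V → Bool)
    {u : ℝ} (h5 : (2 * p / r : ℝ) * d ≤ u) :
    ∑ T : Finset (V × Fin m), (2 * p : ℝ) ^ T.card * cf Q J z T ^ 2 ≤ K * (Real.exp u - 1) := by
  have hQc : (0 : ℝ) < Q.card := by exact_mod_cast hQn.card_pos
  have hrR : (0 : ℝ) < r := by exact_mod_cast hr0
  -- the fraction of rows
  set fr : Finset (V × Fin m) → ℝ := fun T =>
    (∑ x ∈ Q, if T ⊆ gr x (J x) then (1 : ℝ) else 0) / Q.card with hfr
  have hfr0 : ∀ T, 0 ≤ fr T := fun T => by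
    rw [hfr]
    refine div_nonneg (sum_nonneg fun x _ => ?_) hQc.le
    split_ifs <;> norm_num
  have hab : ∀ T, |cf Q J z T| ≤ fr T := by
    intro T
    unfold cf
    split_ifs with h
    · rw [abs_zero]; exact hfr0 T
    · rw [abs_div, abs_of_pos hQc]
      refine div_le_div_of_nonneg_right ?_ hQc.le
      refine (abs_sum_le_sum_abs _ _).trans (sum_le_sum fun x _ => ?_)
      split_ifs with h'
      · rw [abs_prod]
        refine (prod_eq_one fun q _ => ?_).le
        rcases sg_cases (z x q.1) with h | h <;> rw [h] <;> norm_num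
      · rw [abs_zero]
  have hfr1 : ∀ T, fr T ≤ K / (r : ℝ) ^ T.card := by
    intro T
    by_cases hex : ∃ x ∈ Q, T ⊆ gr x (J x)
    · obtain ⟨x, hx, hT⟩ := hex
      set S : Finset V := T.image Prod.fst with hS
      have hTS : T = gr x S := by
        ext q
        rw [mem_gr, hS, mem_image]
        constructor
        · intro hq
          exact ⟨⟨q, hq, rfl⟩, (mem_gr.1 (hT hq)).2⟩
        · rintro ⟨⟨q', hq', h1⟩, h2⟩
          have h3 := (mem_gr.1 (hT hq')).2
          have : q = q' := by
            refine Prod.ext h1.symm ?_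
            rw [← h2, ← h3, h1]
          rw [this]; exact hq'
      have hTc : T.card = S.card := by rw [hTS, card_gr]
      have hSJ : S ⊆ J x := by
        intro v hv
        rw [hS, mem_image] at hv
        obtain ⟨q, hq, rfl⟩ := hv
        exact (mem_gr.1 (hT hq)).1
      have hSI : Disjoint S I := disjoint_of_subset_left hSJ (hJ x hx)
      have h1 := hd S hSI x
      have h2 : (∑ x ∈ Q, if T ⊆ gr x (J x) then (1 : ℝ) else 0)
          ≤ ((P.filter (fun x' => ∀ v ∈ S, x' v = x v)).card : ℝ) := by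
        rw [← sum_filter, sum_const, nsmul_eq_mul, mul_one]
        refine Nat.cast_le.2 (card_le_card fun x' hx' => ?_)
        rw [mem_filter] at hx' ⊢
        refine ⟨hQP hx'.1, fun v hv => ?_⟩
        have h3 : (v, x v) ∈ gr x S := mem_gr.2 ⟨hv, rfl⟩
        rw [← hTS] at h3
        exact (mem_gr.1 (hx'.2 h3)).2
      have h4 : ((P.filter (fun x' => ∀ v ∈ S, x' v = x v)).card : ℝ) * (r : ℝ) ^ S.card
          ≤ K * Q.card := by
        have := h1.trans hQ
        exact_mod_cast this
      rw [hfr]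
      simp only
      rw [div_le_div_iff₀ hQc (by positivity), hTc]
      exact (mul_le_mul_of_nonneg_right h2 (by positivity)).trans h4
    · have : fr T = 0 := by
        rw [hfr]
        simp only
        rw [sum_eq_zero, zero_div]
        intro x hx
        rw [if_neg]
        intro h
        exact hex ⟨x, hx, h⟩
      rw [this]; positivity
  have hb : ∀ T : Finset (V × Fin m), (2 * p : ℝ) ^ T.card * cf Q J z T ^ 2
      ≤ if T = ∅ then 0 else (2 * p : ℝ) ^ T.card * (fr T * (K / (r : ℝ) ^ T.card)) := by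
    intro T
    split_ifs with h
    · subst h; simp [cf]
    · refine mul_le_mul_of_nonneg_left ?_ (by positivity)
      rw [← sq_abs, sq]
      exact mul_le_mul (hab T) ((hab T).trans (hfr1 T)) (abs_nonneg _) (hfr0 T)
  refine (sum_le_sum fun T _ => hb T).trans ?_
  have hc : ∀ T : Finset (V × Fin m),
      (if T = ∅ then 0 else (2 * p : ℝ) ^ T.card * (fr T * (K / (r : ℝ) ^ T.card)))
      = (K / Q.card) * ∑ x ∈ Q, if T = ∅ then 0 else
          if T ⊆ gr x (J x) then (2 * p / r : ℝ) ^ T.card else 0 := by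
    intro T
    split_ifs with h
    · simp
    · rw [hfr]
      simp only
      rw [div_mul_eq_mul_div, sum_mul, mul_div_assoc', mul_sum, mul_sum, sum_div]
      refine sum_congr rfl fun x _ => ?_
      split_ifs with h'
      · rw [div_pow]; field_simp
      · simp
  rw [sum_congr rfl fun T _ => hc T, ← mul_sum, sum_comm]
  have hx : ∀ x ∈ Q, (∑ T : Finset (V × Fin m), if T = ∅ then (0 : ℝ) else
          if T ⊆ gr x (J x) then (2 * p / r : ℝ) ^ T.card else 0) ≤ Real.exp u - 1 := by
    intro x hx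
    have h1 : (∑ T : Finset (V × Fin m), if T = ∅ then (0 : ℝ) else
          if T ⊆ gr x (J x) then (2 * p / r : ℝ) ^ T.card else 0)
        = (1 + 2 * p / r : ℝ) ^ (J x).card - 1 := by
      have h2 : ∀ T : Finset (V × Fin m), (if T = ∅ then (0 : ℝ) else
          if T ⊆ gr x (J x) then (2 * p / r : ℝ) ^ T.card else 0)
          = (if T ⊆ gr x (J x) then (2 * p / r : ℝ) ^ T.card else 0)
            - if T = ∅ then 1 else 0 := by
        intro T
        split_ifs with h1 h2
        · subst h1; simp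
        · subst h1; exact absurd (empty_subset _) h2
        · ring
        · ring
      rw [sum_congr rfl fun T _ => h2 T, sum_sub_distrib]
      have h3 : (∑ T : Finset (V × Fin m), if T ⊆ gr x (J x) then (2 * p / r : ℝ) ^ T.card else 0)
          = (1 + 2 * p / r : ℝ) ^ (J x).card := by
        rw [← sum_filter]
        have : univ.filter (fun T => T ⊆ gr x (J x)) = (gr x (J x)).powerset := by
          ext T; simp
        rw [this]
        have h4 := Finset.prod_one_add (s := gr x (J x)) (f := fun _ => (2 * p / r : ℝ))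
        rw [prod_const, card_gr] at h4
        rw [h4]
        refine sum_congr rfl fun T _ => ?_
        rw [prod_const]
      rw [h3]
      simp
    rw [h1]
    have h6 : (1 + 2 * p / r : ℝ) ^ (J x).card ≤ Real.exp u := by
      calc (1 + 2 * p / r : ℝ) ^ (J x).card ≤ (Real.exp (2 * p / r)) ^ (J x).card := by
            refine pow_le_pow_left₀ (by positivity) ?_ _
            have := Real.add_one_le_exp (2 * p / r : ℝ)
            linarith
        _ = Real.exp ((J x).card * (2 * p / r : ℝ)) := by rw [Real.exp_nat_mul]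
        _ ≤ Real.exp u := by
            refine Real.exp_le_exp.2 ?_
            refine le_trans ?_ h5
            rw [mul_comm]
            refine mul_le_mul_of_nonneg_left ?_ (by positivity)
            exact_mod_cast hJd x hx
    linarith
  calc (K / Q.card : ℝ) * ∑ x ∈ Q, (∑ T : Finset (V × Fin m), if T = ∅ then (0 : ℝ) else
          if T ⊆ gr x (J x) then (2 * p / r : ℝ) ^ T.card else 0)
      ≤ (K / Q.card : ℝ) * ∑ x ∈ Q, (Real.exp u - 1) :=
        mul_le_mul_of_nonneg_left (sum_le_sum hx) (by positivity)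
    _ = K * (Real.exp u - 1) := by
        rw [sum_const, nsmul_eq_mul]
        field_simp

theorem cf_sum_leK8 {r d p K : ℕ} (hK : 1 ≤ K) (hr0 : 0 < r) {P Q : Finset (V → Fin m)} (hQP : Q ⊆ P)
    (hQ : P.card ≤ K * Q.card) (hQn : Q.Nonempty) {I : Finset V} (hd : Dense r I P)
    {J : (V → Fin m) → Finset V} (hJ : ∀ x ∈ Q, Disjoint (J x) I)
    (hJd : ∀ x ∈ Q, (J x).card ≤ d) (z : (V → Fin m) → V → Bool)
    (hr : 32 * K * p * d ≤ r) :
    ∑ T : Finset (V × Fin m), (2 * p : ℝ) ^ T.card * cf Q J z T ^ 2 ≤ 1 / 8 := by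
  have hrR : (0 : ℝ) < r := by exact_mod_cast hr0
  have hKR : (1 : ℝ) ≤ K := by exact_mod_cast hK
  have h5 : (2 * p / r : ℝ) * d ≤ 1 / (16 * K) := by
    rw [div_mul_eq_mul_div, div_le_div_iff₀ hrR (by positivity)]
    have : (32 * K * p * d : ℝ) ≤ r := by exact_mod_cast hr
    linarith
  have h6 := cf_sum_leK hr0 hQP hQ hQn hd hJ hJd z h5
  refine h6.trans ?_
  set u : ℝ := 1 / (16 * K) with hu
  have hu0 : 0 < u := by positivity
  have hu1 : u ≤ 1 / 16 := by
    rw [hu]
    exact one_div_le_one_div_of_le (by norm_num) (by linarith)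
  have h7 : Real.exp u - 1 ≤ 2 * u := by
    have h8 := Real.abs_exp_sub_one_le (x := u) (by rw [abs_of_pos hu0]; linarith)
    rw [abs_of_pos hu0] at h8
    exact (le_abs_self _).trans h8
  calc (K : ℝ) * (Real.exp u - 1) ≤ K * (2 * u) := mul_le_mul_of_nonneg_left h7 (by positivity)
    _ = 1 / 8 := by rw [hu]; field_simp; norm_num

/-- Some row is matched by many columns. -/
theorem core2K {r d p K : ℕ} (hK : 1 ≤ K) (hp : 1 ≤ p) (hr0 : 0 < r) {P Q : Finset (V → Fin m)} (hQP : Q ⊆ P)
    (hQ : P.card ≤ K * Q.card) (hQn : Q.Nonempty) {I : Finset V} (hd : Dense r I P)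
    {J : (V → Fin m) → Finset V} (hJ : ∀ x ∈ Q, Disjoint (J x) I)
    (hJd : ∀ x ∈ Q, (J x).card ≤ d) (z : (V → Fin m) → V → Bool)
    (hr : 32 * K * p * d ≤ r) (Y : Finset (V × Fin m → Bool))
    (hY : 2 * 2 ^ (Fintype.card V * m) ≤ Y.card * 2 ^ p) :
    ∃ x ∈ Q, Y.card ≤ 4 * 2 ^ (J x).card *
      (Y.filter (fun y => ∀ v ∈ J x, y (v, x v) = z x v)).card := by
  classical
  have hQc : (0 : ℝ) < Q.card := by exact_mod_cast hQn.card_pos
  set S : (V × Fin m → Bool) → ℝ := fun y =>
    ∑ T : Finset (V × Fin m), cf Q J z T * ∏ q ∈ T, sg (y q) with hS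
  set B := univ.filter (fun y : V × Fin m → Bool => S y < -(1 / 2)) with hB
  -- few bad columns
  have h1 : ∀ y : V × Fin m → Bool, (if y ∈ B then (1 : ℝ) else 0)
      ≤ 4 ^ p * S y ^ (2 * p) := by
    intro y
    split_ifs with h
    · rw [hB, mem_filter] at h
      have h2 : (1 : ℝ) ≤ 4 * S y ^ 2 := by nlinarith [h.2]
      rw [pow_mul, ← mul_pow]
      exact one_le_pow₀ h2
    · rw [pow_mul]; positivity
  have h2 : av (fun y : V × Fin m → Bool => if y ∈ B then (1 : ℝ) else 0) ≤ (1 / 2) ^ p := by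
    refine (av_mono h1).trans ?_
    rw [av_mul_left]
    refine (mul_le_mul_of_nonneg_left (poly_moment _ hp) (by positivity)).trans ?_
    rw [← mul_pow]
    refine pow_le_pow_left₀ (mul_nonneg (by norm_num)
      (sum_nonneg fun T _ => by positivity)) ?_ _
    have := cf_sum_leK8 hK hr0 hQP hQ hQn hd hJ hJd z hr
    linarith
  unfold av at h2
  rw [← sum_filter, sum_const, nsmul_eq_mul, mul_one] at h2
  have h3 : univ.filter (fun y => y ∈ B) = B := by ext y; simp
  rw [h3] at h2
  have hcard : Fintype.card (V × Fin m → Bool) = 2 ^ (Fintype.card V * m) := by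
    rw [Fintype.card_fun, Fintype.card_prod, Fintype.card_fin, Fintype.card_bool]
  rw [hcard, div_le_iff₀ (by positivity), one_div, inv_pow] at h2
  have h4 : (B.card : ℝ) * 2 ^ p ≤ 2 ^ (Fintype.card V * m) := by
    calc (B.card : ℝ) * 2 ^ p ≤ ((2 ^ p)⁻¹ * ((2 ^ (Fintype.card V * m) : ℕ) : ℝ)) * 2 ^ p :=
          mul_le_mul_of_nonneg_right h2 (by positivity)
      _ = 2 ^ (Fintype.card V * m) := by push_cast; field_simp
  have h4' : B.card * 2 ^ p ≤ 2 ^ (Fintype.card V * m) := by exact_mod_cast h4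
  have h5 : 2 * B.card ≤ Y.card := by
    have h6 : 2 * B.card * 2 ^ p ≤ Y.card * 2 ^ p := by
      calc 2 * B.card * 2 ^ p = 2 * (B.card * 2 ^ p) := by ring
        _ ≤ 2 * 2 ^ (Fintype.card V * m) := Nat.mul_le_mul_left _ h4'
        _ ≤ _ := hY
    exact Nat.le_of_mul_le_mul_right h6 (by positivity)
  -- the sum over the good columns
  set ω : (V → Fin m) → (V × Fin m → Bool) → ℝ := fun x y =>
    ∏ q ∈ gr x (J x), (1 + sg (z x q.1) * sg (y q)) with hω
  have hSω : ∀ y, S y + 1 = (∑ x ∈ Q, ω x y) / Q.card := by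
    intro y
    rw [hS]
    simp only
    rw [poly_eq, sum_sub_distrib, sum_const, nsmul_eq_mul, mul_one, sub_div, div_self hQc.ne']
    ring
  have hωval : ∀ x y, ω x y = if ∀ v ∈ J x, y (v, x v) = z x v then (2 : ℝ) ^ (J x).card else 0 := by
    intro x y
    rw [hω]
    simp only
    split_ifs with h
    · have h6 : ∀ q ∈ gr x (J x), 1 + sg (z x q.1) * sg (y q) = 2 := by
        intro q hq
        obtain ⟨h7, h8⟩ := mem_gr.1 hq
        have h9 : y q = z x q.1 := by
          have := h q.1 h7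
          rw [h8] at this
          exact this
        rw [h9, sg_mul_self]; norm_num
      rw [prod_congr rfl h6, prod_const, card_gr]
    · push Not at h
      obtain ⟨v, hv, hne⟩ := h
      refine prod_eq_zero (i := (v, x v)) (mem_gr.2 ⟨hv, rfl⟩) ?_
      simp only
      revert hne
      unfold sg
      cases y (v, x v) <;> cases z x v <;> simp
  have hω0 : ∀ x y, 0 ≤ ω x y := by
    intro x y
    rw [hωval]
    split_ifs <;> positivity
  have hsum : (Y.card : ℝ) / 4 ≤ ∑ y ∈ Y, (S y + 1) := by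
    have h6 : ∑ y ∈ Y \ B, ((1 : ℝ) / 2) ≤ ∑ y ∈ Y \ B, (S y + 1) := by
      refine sum_le_sum fun y hy => ?_
      rw [mem_sdiff, hB, mem_filter, not_and, not_lt] at hy
      have := hy.2 (mem_univ _)
      linarith
    have h7 : ∑ y ∈ Y \ B, (S y + 1) ≤ ∑ y ∈ Y, (S y + 1) := by
      refine sum_le_sum_of_subset_of_nonneg sdiff_subset fun y _ _ => ?_
      rw [hSω]
      exact div_nonneg (sum_nonneg fun x _ => hω0 x y) hQc.le
    rw [sum_const, nsmul_eq_mul] at h6
    have h8 : Y.card ≤ (Y \ B).card + B.card := by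
      have := card_le_card (show Y ⊆ (Y \ B) ∪ B from by
        intro y hy
        by_cases h : y ∈ B
        · exact mem_union_right _ h
        · exact mem_union_left _ (mem_sdiff.2 ⟨hy, h⟩))
      exact this.trans (card_union_le _ _)
    have h9 : (Y.card : ℝ) ≤ 2 * (Y \ B).card := by
      have : Y.card ≤ 2 * (Y \ B).card := by omega
      exact_mod_cast this
    linarith
  have hsum2 : ∑ y ∈ Y, (S y + 1) = (∑ x ∈ Q, ∑ y ∈ Y, ω x y) / Q.card := by
    rw [sum_congr rfl fun y _ => hSω y, ← sum_div, sum_comm]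
  by_contra hcon
  push Not at hcon
  have h10 : ∑ x ∈ Q, ∑ y ∈ Y, ω x y < ∑ x ∈ Q, (Y.card : ℝ) / 4 := by
    refine sum_lt_sum_of_nonempty hQn fun x hx => ?_
    have h11 := hcon x hx
    have h12 : ∑ y ∈ Y, ω x y = (2 : ℝ) ^ (J x).card *
        ((Y.filter (fun y => ∀ v ∈ J x, y (v, x v) = z x v)).card : ℝ) := by
      rw [sum_congr rfl fun y _ => hωval x y, ← sum_filter, sum_const, nsmul_eq_mul, mul_comm]
    rw [h12, lt_div_iff₀ (by norm_num)]
    have h13 : (4 : ℝ) * 2 ^ (J x).card *
        ((Y.filter (fun y => ∀ v ∈ J x, y (v, x v) = z x v)).card : ℝ) < Y.card := by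
      exact_mod_cast h11
    linarith
  rw [sum_const, nsmul_eq_mul] at h10
  rw [hsum2, le_div_iff₀ hQc] at hsum
  linarith

end Pool.Agent.HM94.NL
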