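import Pool.Agent.HM94.NL.Machine

/-!
# Registers with values in a linear order
-/

set_option autoImplicit false

namespace Pool.Agent.HM94.NL

open Finset

/-- `w` registers with values in any linear order (for instance real numbers) are simple. -/
theorem simple_of_linear {R : Type} [LinearOrder R] {w K σ : ℕ} (hw : 1 ≤ w) (hK : 1 ≤ K)
    (h : (w * K + 1) ^ w ≤ 2 ^ σ) : Simple (Fin w → R) K σ := by
  classical
  intro α β X Y a b
  by_cases hX : X.card = 0
  · refine ⟨X, subset_rfl, Y, subset_rfl, Nat.mul_le_mul_left _ (Nat.sub_le _ _),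
      Nat.le_mul_of_pos_left _ (by positivity), ?_⟩
    intro x hx
    rw [card_eq_zero.1 hX] at hx
    exact absurd hx (notMem_empty x)
  by_cases hY : Y.card = 0
  · refine ⟨X, subset_rfl, Y, subset_rfl, Nat.mul_le_mul_left _ (Nat.sub_le _ _),
      Nat.le_mul_of_pos_left _ (by positivity), ?_⟩
    intro x _
    left
    intro y hy
    rw [card_eq_zero.1 hY] at hy
    exact absurd hy (notMem_empty y)
  have hXpos : 0 < X.card := Nat.pos_of_ne_zero hX
  have hwK : 0 < w * K := Nat.mul_pos hw hK
  -- the classes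
  set φ : Fin w → β → ℕ := fun q y => (X.filter (fun x => a x q ≤ b y q)).card with hφ
  have hφle : ∀ q y, φ q y ≤ X.card := fun q y => card_le_card (filter_subset _ _)
  set cl : β → Fin w → Fin (w * K + 1) := fun y q =>
    ⟨φ q y * (w * K) / X.card, by
      rw [Nat.div_lt_iff_lt_mul hXpos]
      calc φ q y * (w * K) ≤ X.card * (w * K) := Nat.mul_le_mul_right _ (hφle q y)
        _ < (w * K + 1) * X.card := by
            rw [add_mul, mul_comm]; omega⟩ with hcl
  obtain ⟨c, hc⟩ : ∃ c : Fin w → Fin (w * K + 1),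
      Y.card ≤ 2 ^ σ * (Y.filter (fun y => cl y = c)).card := by
    by_contra hcon
    push Not at hcon
    have h1 : Y.card = ∑ c : Fin w → Fin (w * K + 1), (Y.filter (fun y => cl y = c)).card :=
      card_eq_sum_card_fiberwise fun y _ => mem_coe.2 (mem_univ _)
    have hne : (univ : Finset (Fin w → Fin (w * K + 1))).Nonempty := ⟨fun _ => 0, mem_univ _⟩
    have h2 : ∑ c : Fin w → Fin (w * K + 1), 2 ^ σ * (Y.filter (fun y => cl y = c)).card
        < ∑ _c : Fin w → Fin (w * K + 1), Y.card := sum_lt_sum_of_nonempty hne fun c _ => hcon c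
    rw [← mul_sum, ← h1, sum_const, card_univ, smul_eq_mul, Fintype.card_fun, Fintype.card_fin,
      Fintype.card_fin] at h2
    have h3 : (w * K + 1) ^ w * Y.card ≤ 2 ^ σ * Y.card := Nat.mul_le_mul_right _ h
    omega
  set Y0 := Y.filter (fun y => cl y = c) with hY0
  have hY0n : Y0.Nonempty := by
    rw [← card_pos]
    by_contra hcon
    have h1 : Y0.card = 0 := by omega
    rw [h1, mul_zero] at hc
    omega
  -- the ambiguous rows
  set Am : Fin w → Finset α := fun q => X.filter (fun x =>
    (∃ y ∈ Y0, a x q ≤ b y q) ∧ ∃ y ∈ Y0, ¬ a x q ≤ b y q) with hAm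
  have hAmc : ∀ q, (Am q).card * (w * K) ≤ X.card := by
    intro q
    obtain ⟨y1, hy1, hmin⟩ := exists_min_image Y0 (fun y => b y q) hY0n
    obtain ⟨y2, hy2, hmax⟩ := exists_max_image Y0 (fun y => b y q) hY0n
    have h1 : Am q ⊆ (X.filter (fun x => a x q ≤ b y2 q)) \ (X.filter (fun x => a x q ≤ b y1 q)) := by
      intro x hx
      rw [hAm, mem_filter] at hx
      obtain ⟨hxX, ⟨y, hy, h2⟩, ⟨y', hy', h3⟩⟩ := hx
      rw [mem_sdiff, mem_filter, mem_filter]
      exact ⟨⟨hxX, h2.trans (hmax y hy)⟩, fun h4 => h3 (h4.2.trans (hmin y' hy'))⟩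
    have h2 : (X.filter (fun x => a x q ≤ b y1 q)) ⊆ (X.filter (fun x => a x q ≤ b y2 q)) := by
      intro x hx
      rw [mem_filter] at hx ⊢
      exact ⟨hx.1, hx.2.trans (hmax y1 hy1)⟩
    have h3 : (Am q).card + φ q y1 ≤ φ q y2 := by
      have h4 := card_le_card h1
      rw [card_sdiff_of_subset h2] at h4
      have h5 := card_le_card h2
      change (Am q).card + (X.filter (fun x => a x q ≤ b y1 q)).card ≤
        (X.filter (fun x => a x q ≤ b y2 q)).card
      omega
    have h4 : φ q y1 * (w * K) / X.card = φ q y2 * (w * K) / X.card := by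
      have h5 : cl y1 = cl y2 := by
        rw [(mem_filter.1 hy1).2, (mem_filter.1 hy2).2]
      have h6 := congrArg Fin.val (congrFun h5 q)
      rw [hcl] at h6
      exact h6
    have h5 : φ q y2 * (w * K) < (φ q y2 * (w * K) / X.card + 1) * X.card := by
      rw [mul_comm (_ + 1)]
      exact Nat.lt_mul_div_succ _ hXpos
    have h6 : φ q y1 * (w * K) / X.card * X.card ≤ φ q y1 * (w * K) := Nat.div_mul_le_self _ _
    rw [← h4, add_mul, one_mul] at h5
    have h7 : (Am q).card * (w * K) + φ q y1 * (w * K) ≤ φ q y2 * (w * K) := by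
      rw [← add_mul]; exact Nat.mul_le_mul_right _ h3
    omega
  refine ⟨X \ univ.biUnion Am, sdiff_subset, Y0, filter_subset _ _, ?_, hc, ?_⟩
  · have h1 : (univ.biUnion Am).card * K ≤ X.card := by
      have h2 : (univ.biUnion Am).card ≤ ∑ q, (Am q).card := card_biUnion_le
      have h3 : (∑ q, (Am q).card) * (w * K) ≤ w * X.card := by
        rw [sum_mul]
        refine (sum_le_sum fun q _ => hAmc q).trans ?_
        rw [sum_const, card_univ, Fintype.card_fin, smul_eq_mul]
      have h4 : w * ((univ.biUnion Am).card * K) ≤ w * X.card := by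
        calc w * ((univ.biUnion Am).card * K) = (univ.biUnion Am).card * (w * K) := by ring
          _ ≤ (∑ q, (Am q).card) * (w * K) := Nat.mul_le_mul_right _ h2
          _ ≤ w * X.card := h3
      exact Nat.le_of_mul_le_mul_left h4 hw
    have h5 : X.card ≤ (X \ univ.biUnion Am).card + (univ.biUnion Am).card := by
      have h6 : X ⊆ (X \ univ.biUnion Am) ∪ univ.biUnion Am := by
        intro x hx
        by_cases h7 : x ∈ univ.biUnion Am
        · exact mem_union_right _ h7
        · exact mem_union_left _ (mem_sdiff.2 ⟨hx, h7⟩)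
      exact (card_le_card h6).trans (card_union_le _ _)
    have h6 : X.card * K ≤ ((X \ univ.biUnion Am).card + (univ.biUnion Am).card) * K :=
      Nat.mul_le_mul_right _ h5
    rw [add_mul] at h6
    have h7 : X.card * (K - 1) + X.card = X.card * K := by
      rw [Nat.mul_sub, mul_one]
      have : X.card * 1 ≤ X.card * K := Nat.mul_le_mul_left _ hK
      omega
    omega
  · intro x hx
    rw [mem_sdiff] at hx
    have hno : ∀ q, ¬ ((∃ y ∈ Y0, a x q ≤ b y q) ∧ ∃ y ∈ Y0, ¬ a x q ≤ b y q) := by
      intro q hq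
      exact hx.2 (mem_biUnion.2 ⟨q, mem_univ _, mem_filter.2 ⟨hx.1, hq⟩⟩)
    by_cases hall : ∀ q, ∃ y ∈ Y0, a x q ≤ b y q
    · left
      intro y hy q
      by_contra hcon
      exact hno q ⟨hall q, y, hy, hcon⟩
    · right
      push Not at hall
      obtain ⟨q, hq⟩ := hall
      intro y hy hle
      exact absurd (hle q) (not_le.2 (hq y hy))

end Pool.Agent.HM94.NL
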