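import Mathlib

/-!
# Monotone machines

A machine (a branching program with levels) reads in every step one input bit, which depends on the
time and on the state.  It is monotone if the states are (pre)ordered and the transitions are
monotone.
-/

set_option autoImplicit false

namespace Pool.Agent.HM94.NL

open Finset

/-- A machine with the inputs `ι` and the states `Q`: the first state, the input which is read at the
time `t` in the state `σ`, the next state, the number of steps, the accepting states. -/
structure Machine (ι Q : Type) where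
  start : Q
  query : ℕ → Q → ι
  next : ℕ → Q → Bool → Q
  len : ℕ
  acc : Q → Bool

variable {ι Q : Type}

/-- The state after `t` steps. -/
def Machine.st (M : Machine ι Q) (x : ι → Bool) : ℕ → Q
  | 0 => M.start
  | t + 1 => M.next t (M.st x t) (x (M.query t (M.st x t)))

/-- The result. -/
def Machine.out (M : Machine ι Q) (x : ι → Bool) : Bool := M.acc (M.st x M.len)

/-- The machine is monotone, except that the inputs outside of `H` may be used in any way: for all
inputs the next state is a monotone function of the state; it is a monotone function of the input bit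
if this belongs to `H`; the set of the accepting states is upward closed. -/
structure Machine.MonoIn [Preorder Q] (M : Machine ι Q) (H : Set ι) : Prop where
  state : ∀ t < M.len, ∀ (x : ι → Bool) (σ τ : Q), σ ≤ τ →
    M.next t σ (x (M.query t σ)) ≤ M.next t τ (x (M.query t τ))
  input : ∀ t < M.len, ∀ σ : Q, M.query t σ ∈ H → M.next t σ false ≤ M.next t σ true
  acc : ∀ σ τ : Q, σ ≤ τ → M.acc σ = true → M.acc τ = true

/-- One step distinguishes two inputs only if it reads a distinguishing input bit. -/
theorem Machine.step_read [Preorder Q] {M : Machine ι Q} {H : Set ι} (hM : M.MonoIn H) {t : ℕ}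
    (ht : t < M.len) {x y : ι → Bool} (hxy : ∀ i, i ∉ H → x i = y i)
    (h1 : M.st x t ≤ M.st y t) (h2 : ¬ M.st x (t + 1) ≤ M.st y (t + 1)) :
    x (M.query t (M.st y t)) = true ∧ y (M.query t (M.st y t)) = false := by
  by_contra hcon
  apply h2
  change M.next t (M.st x t) (x (M.query t (M.st x t))) ≤
    M.next t (M.st y t) (y (M.query t (M.st y t)))
  refine (hM.state t ht x _ _ h1).trans ?_
  rcases hx : x (M.query t (M.st y t)) with _ | _
  · rcases hy : y (M.query t (M.st y t)) with _ | _
    · exact le_rfl
    · refine hM.input t ht _ ?_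
      by_contra hH
      have := hxy _ hH
      rw [hx, hy] at this
      exact absurd this (by simp)
  · rcases hy : y (M.query t (M.st y t)) with _ | _
    · exact absurd ⟨hx, hy⟩ hcon
    · exact le_rfl

/-- Comparisons of the states can be made to depend on one side only: up to a fraction `1 / K` of
one side and for a fraction `1 / 2 ^ σ` of the other side. -/
def Simple (Q : Type) [Preorder Q] (K σ : ℕ) : Prop :=
  ∀ (α β : Type) (X : Finset α) (Y : Finset β) (a : α → Q) (b : β → Q),
    ∃ X0 ⊆ X, ∃ Y0 ⊆ Y, X.card * (K - 1) ≤ X0.card * K ∧ Y.card ≤ 2 ^ σ * Y0.card ∧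
      ∀ x ∈ X0, (∀ y ∈ Y0, a x ≤ b y) ∨ (∀ y ∈ Y0, ¬ a x ≤ b y)

/-- Few states are simple. -/
theorem simple_of_card [Preorder Q] [Fintype Q] {S : ℕ} (hQ : Fintype.card Q ≤ 2 ^ S) (K : ℕ) :
    Simple Q K S := by
  classical
  intro α β X Y a b
  by_cases hY : Y.card = 0
  · refine ⟨X, subset_rfl, Y, subset_rfl, Nat.mul_le_mul_left _ (Nat.sub_le _ _), by omega, ?_⟩
    intro x _
    left
    intro y hy
    rw [card_eq_zero.1 hY] at hy
    exact absurd hy (notMem_empty y)
  · obtain ⟨c, hc⟩ : ∃ c : Q, Y.card ≤ 2 ^ S * (Y.filter (fun y => b y = c)).card := by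
      by_contra hcon
      push Not at hcon
      have h1 : Y.card = ∑ c : Q, (Y.filter (fun y => b y = c)).card :=
        card_eq_sum_card_fiberwise fun y _ => mem_coe.2 (mem_univ _)
      have hne : (univ : Finset Q).Nonempty := by
        obtain ⟨y, hy⟩ := card_pos.1 (Nat.pos_of_ne_zero hY)
        exact ⟨b y, mem_univ _⟩
      have h2 : ∑ c : Q, 2 ^ S * (Y.filter (fun y => b y = c)).card < ∑ c : Q, Y.card :=
        sum_lt_sum_of_nonempty hne fun c _ => hcon c
      rw [← mul_sum, ← h1, sum_const, card_univ, smul_eq_mul] at h2
      have h3 : Fintype.card Q * Y.card ≤ 2 ^ S * Y.card := Nat.mul_le_mul_right _ hQ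
      omega
    refine ⟨X, subset_rfl, Y.filter (fun y => b y = c), filter_subset _ _,
      Nat.mul_le_mul_left _ (Nat.sub_le _ _), hc, ?_⟩
    intro x _
    by_cases hx : a x ≤ c
    · left
      intro y hy
      rw [(mem_filter.1 hy).2]
      exact hx
    · right
      intro y hy
      rw [(mem_filter.1 hy).2]
      exact hx

end Pool.Agent.HM94.NL
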