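import Pool.Agent.HM94.NL.Conn
import Pool.Agent.HM94.NL.Machine

/-!
# Fast monotone machines with few states do not solve directed reachability
-/

set_option autoImplicit false

namespace Pool.Agent.HM94.NL

open Finset Pool.Agent.HM94.MSC

theorem succ_pow_le (r : ℕ) (hr : 1 ≤ r) : (r + 1) ^ r ≤ 4 * r ^ r := by
  have hr0 : (0 : ℝ) < r := by exact_mod_cast hr
  have h1 : ((1 : ℝ) + 1 / r) ^ r ≤ 4 := by
    calc ((1 : ℝ) + 1 / r) ^ r ≤ (Real.exp (1 / r)) ^ r := by
          refine pow_le_pow_left₀ (by positivity) ?_ _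
          have := Real.add_one_le_exp (1 / (r : ℝ))
          linarith
      _ = Real.exp 1 := by
          rw [← Real.exp_nat_mul]
          congr 1
          field_simp
      _ ≤ 4 := by
          have := Real.exp_one_lt_d9
          linarith
  have h2 : ((r : ℝ) + 1) ^ r ≤ 4 * (r : ℝ) ^ r := by
    have h3 : ((r : ℝ) + 1) = (1 + 1 / r) * r := by field_simp
    rw [h3, mul_pow]
    exact mul_le_mul_of_nonneg_right h1 (by positivity)
  exact_mod_cast h2

/-- **The lower bound.**  The machine has to be right for a fraction `1 / 2 ^ e` of the paths and for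
a fraction `1 / 2 ^ e` of the cuts. -/
theorem conn_lower {T m q r κ S ρ e : ℕ} {Q : Type} [Preorder Q] (L : Finset (Fin T))
    (M : Machine (Edge T m) Q) (hM : M.MonoIn {e | e.1 ∈ L})
    (X : Finset (Fin (L.card + 1) → Fin m)) (hX : m ^ (L.card + 1) ≤ X.card * 2 ^ e)
    (hXa : ∀ x ∈ X, M.out (alp L x) = true)
    (Y : Finset (Fin (L.card + 1) × Fin m → Bool)) (hY : 2 ^ ((L.card + 1) * m) ≤ Y.card * 2 ^ e)
    (hYa : ∀ y ∈ Y, M.out (bet L y) = false)
    (hQ : Simple Q (2 * (r + 1)) S) (hlen : M.len ≤ 2 ^ r) (hκ : 2 ^ (r + e + 3) < κ ^ (q + 1))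
    (hρ : 64 * 2 ^ e * (r + 1) * (q + (S + 2) * r + e + 3) * q ≤ ρ) (hρ2 : 2 ≤ ρ)
    (hm : κ * ρ ≤ m) : L.card ≤ 2 ^ q := by
  classical
  by_cases hL : L.card = 0
  · rw [hL]; exact Nat.zero_le _
  have hκ0 : 0 < κ := by
    rcases Nat.eq_zero_or_pos κ with h | h
    · rw [h, zero_pow (by omega)] at hκ
      exact absurd hκ (by simp)
    · exact h
  have hρ0 : 0 < ρ := by omega
  have hρm : ρ ≤ m := (Nat.le_mul_of_pos_left ρ hκ0).trans hm
  have hm0 : 0 < m := by omega
  obtain ⟨N, hN⟩ : ∃ N, N = L.card + 1 := ⟨_, rfl⟩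
  have hNc : Fintype.card (Fin (L.card + 1)) = N := by rw [hN]; exact Fintype.card_fin _
  have hX' : m ^ N ≤ X.card * 2 ^ e := by rw [hN]; exact hX
  have hY' : 2 ^ (N * m) ≤ Y.card * 2 ^ e := by rw [hN]; exact hY
  set A : ℕ → (Fin (L.card + 1) → Fin m) → Q := fun τ x => M.st (alp L x) τ with hA
  set B : ℕ → (Fin (L.card + 1) × Fin m → Bool) → Q := fun τ y => M.st (bet L y) τ with hB
  have main : ∀ (r' i : ℕ), r' + i = r → ∀ lo hi : ℕ, lo ≤ hi → hi ≤ lo + 2 ^ r' →
      hi ≤ M.len → ∀ (X : Finset (Fin (L.card + 1) → Fin m))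
      (Y : Finset (Fin (L.card + 1) × Fin m → Bool)) (I : Finset (Fin (L.card + 1)))
      (x0 : Fin (L.card + 1) → Fin m) (g h : ℕ), x0 ∈ X →
      (∀ x ∈ X, ∀ v ∈ I, x v = x0 v) → Dense ρ I X →
      m ^ (N - I.card) * κ ^ I.card * r ^ i ≤ X.card * (2 * (r + 1)) ^ i * 2 ^ (e + 1) →
      2 ^ (N * m) ≤ Y.card * 2 ^ (I.card + (S + 2) * i + (e + 2)) →
      (∀ y ∈ Y, ∀ v ∈ I, y (v, x0 v) = decide ((v : ℕ) ≤ g)) →
      (∀ x ∈ X, ∀ y ∈ Y, A lo x ≤ B lo y ∧ ¬ A hi x ≤ B hi y) →
      g + h ≤ L.card → 1 ≤ h → (∀ v ∈ I, (v : ℕ) ≤ g ∨ g + h ≤ (v : ℕ)) →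
      L.card ≤ h * 2 ^ I.card → I.card ≤ q → L.card ≤ 2 ^ q := by
    intro r'
    induction r' with
    | zero =>
      intro i hi0 lo hi hlo hhi hhl X Y I x0 g h hx0 hXI hd hXc hYc hYI hT hgh hh1 hhI hpot hIq
      rw [pow_zero] at hhi
      have hYpos : 0 < Y.card := by
        by_contra hc
        have : Y.card = 0 := by omega
        rw [this, zero_mul] at hYc
        have : 0 < 2 ^ (N * m) := by positivity
        omega
      obtain ⟨y0, hy0⟩ := card_pos.1 hYpos
      have hh : h ≤ 1 := by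
        rcases Nat.lt_or_ge lo hi with h1 | h1
        · have h2 : hi = lo + 1 := by omega
          subst h2
          have hlt : lo < M.len := by omega
          have hread : ∀ x ∈ X, alp L x (M.query lo (M.st (bet L y0) lo)) = true ∧
              bet L y0 (M.query lo (M.st (bet L y0) lo)) = false := by
            intro x hx
            obtain ⟨h3, h4⟩ := hT x hx y0 hy0
            exact M.step_read hM hlt (fun e he => alp_outside L he x y0) h3 h4
          exact leaf L hρ2 hx0 hd (hYI y0 hy0) hhI hgh _ (fun x hx => (hread x hx).1)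
            (hread x0 hx0).2
        · have h2 : hi = lo := by omega
          subst h2
          obtain ⟨h3, h4⟩ := hT x0 hx0 y0 hy0
          exact absurd h3 h4
      calc L.card ≤ h * 2 ^ I.card := hpot
        _ ≤ 1 * 2 ^ q := Nat.mul_le_mul hh (Nat.pow_le_pow_right (by norm_num) hIq)
        _ = 2 ^ q := one_mul _
    | succ r' ih =>
      intro i hi0 lo hi hlo hhi hhl X Y I x0 g h hx0 hXI hd hXc hYc hYI hT hgh hh1 hhI hpot hIq
      have hr1 : 1 ≤ r := by omega
      set mid := min (lo + 2 ^ r') hi with hmid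
      rw [pow_succ] at hhi
      have hm1 : lo ≤ mid := by omega
      have hm2 : mid ≤ lo + 2 ^ r' := by omega
      have hm3 : mid ≤ hi := by omega
      have hm4 : hi ≤ mid + 2 ^ r' := by omega
      -- the announcement
      obtain ⟨X0, hX0, Y0, hY0, hX0c, hY0c, hann⟩ := hQ _ _ X Y (A mid) (B mid)
      have hY0big : 2 * 2 ^ (Fintype.card (Fin (L.card + 1)) * m)
          ≤ Y0.card * 2 ^ (q + (S + 2) * r + e + 3) := by
        rw [hNc]
        calc 2 * 2 ^ (N * m) ≤ 2 * (Y.card * 2 ^ (I.card + (S + 2) * i + (e + 2))) :=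
              Nat.mul_le_mul_left _ hYc
          _ ≤ 2 * ((2 ^ S * Y0.card) * 2 ^ (I.card + (S + 2) * i + (e + 2))) :=
              Nat.mul_le_mul_left _ (Nat.mul_le_mul_right _ hY0c)
          _ = Y0.card * 2 ^ (I.card + (S + 2) * i + (e + 2) + S + 1) := by
              rw [pow_succ, pow_add 2 (I.card + (S + 2) * i + (e + 2)) S]; ring
          _ ≤ Y0.card * 2 ^ (q + (S + 2) * r + e + 3) := by
              refine Nat.mul_le_mul_left _ (Nat.pow_le_pow_right (by norm_num) ?_)
              have h1 : (S + 2) * (i + 1) ≤ (S + 2) * r := Nat.mul_le_mul_left _ (by omega)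
              have h2 : (S + 2) * (i + 1) = (S + 2) * i + (S + 2) := by ring
              omega
      -- the good rows
      obtain ⟨G, hGX, hGc, hG⟩ := good_rows (K := 2 * (r + 1)) (d := q)
        (p := q + (S + 2) * r + e + 3) (by omega) (by omega) hρ0 hd (by
          calc 32 * (2 * (r + 1)) * (q + (S + 2) * r + e + 3) * q
              = 64 * 1 * (r + 1) * (q + (S + 2) * r + e + 3) * q := by ring
            _ ≤ 64 * 2 ^ e * (r + 1) * (q + (S + 2) * r + e + 3) * q :=
                Nat.mul_le_mul_right _ (Nat.mul_le_mul_right _ (Nat.mul_le_mul_right _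
                  (Nat.mul_le_mul_left _ Nat.one_le_two_pow)))
            _ ≤ ρ := hρ) Y0 hY0big
      set Xg := X0 ∩ G with hXg
      have hXgc : X.card * r ≤ (r + 1) * Xg.card := by
        have h1 : X ⊆ Xg ∪ ((X \ X0) ∪ (X \ G)) := by
          intro x hx
          by_cases h1 : x ∈ X0
          · by_cases h2 : x ∈ G
            · exact mem_union_left _ (mem_inter.2 ⟨h1, h2⟩)
            · exact mem_union_right _ (mem_union_right _ (mem_sdiff.2 ⟨hx, h2⟩))
          · exact mem_union_right _ (mem_union_left _ (mem_sdiff.2 ⟨hx, h1⟩))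
        have h2 := (card_le_card h1).trans ((card_union_le _ _).trans
          (Nat.add_le_add_left (card_union_le _ _) _))
        have h3 : (X \ X0).card = X.card - X0.card := card_sdiff_of_subset hX0
        have h4 := card_le_card hX0
        have h5 : (X \ X0).card * (2 * (r + 1)) ≤ X.card := by
          have h6 : (X \ X0).card + X0.card = X.card := by omega
          have h7 : X.card * (2 * (r + 1)) = X.card * (2 * (r + 1) - 1) + X.card := by
            rw [Nat.mul_sub, mul_one]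
            have : X.card * 1 ≤ X.card * (2 * (r + 1)) := Nat.mul_le_mul_left _ (by omega)
            omega
          have h8 : X.card * (2 * (r + 1)) = (X \ X0).card * (2 * (r + 1)) + X0.card * (2 * (r + 1)) := by
            rw [← add_mul, h6]
          omega
        have h9 : X.card * (2 * (r + 1)) ≤ (Xg.card + ((X \ X0).card + (X \ G).card)) * (2 * (r + 1)) :=
          Nat.mul_le_mul_right _ h2
        have h10 : (Xg.card + ((X \ X0).card + (X \ G).card)) * (2 * (r + 1)) =
            Xg.card * (2 * (r + 1)) + ((X \ X0).card * (2 * (r + 1)) + (X \ G).card * (2 * (r + 1))) := by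
          ring
        have h11 : 2 * (X.card * r) + 2 * X.card = X.card * (2 * (r + 1)) := by ring
        have h12 : Xg.card * (2 * (r + 1)) = 2 * ((r + 1) * Xg.card) := by ring
        omega
      -- the majority
      obtain ⟨Mj, hMj, hMc, hcase⟩ : ∃ Mj ⊆ Xg, Xg.card ≤ 2 * Mj.card ∧
          ((∀ x ∈ Mj, ∀ y ∈ Y0, A mid x ≤ B mid y) ∨ (∀ x ∈ Mj, ∀ y ∈ Y0, ¬ A mid x ≤ B mid y)) := by
        rcases half_or Xg (fun x => ∀ y ∈ Y0, A mid x ≤ B mid y) (fun x => ∀ y ∈ Y0, ¬ A mid x ≤ B mid y)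
          (fun x hx => hann x (mem_inter.1 hx).1) with h1 | h1
        · exact ⟨_, filter_subset _ _, h1, Or.inl fun x hx => (mem_filter.1 hx).2⟩
        · exact ⟨_, filter_subset _ _, h1, Or.inr fun x hx => (mem_filter.1 hx).2⟩
      have hXpos : 0 < X.card := card_pos.2 ⟨x0, hx0⟩
      have hMjn : Mj.Nonempty := by
        rw [← card_pos]
        by_contra hc
        have h1 : Mj.card = 0 := by omega
        have h2 : Xg.card = 0 := by omega
        rw [h2, mul_zero] at hXgc
        have h3 : 0 < X.card * r := Nat.mul_pos hXpos (by omega)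
        omega
      obtain ⟨J, P, a, hJI, hPM, haP, hPJ, hPd, hPc⟩ := piece hρ0 I hMjn
      have hPX : P ⊆ X := fun x hx => hX0 (mem_inter.1 (hMj (hPM hx))).1
      have haG : a ∈ G := (mem_inter.1 (hMj (hPM haP))).2
      have hcu : (I ∪ J).card = I.card + J.card := card_union_of_disjoint hJI.symm
      have hcN : I.card + J.card ≤ N := by
        rw [← hcu, ← hNc]; exact card_le_univ _
      have hPI : ∀ x ∈ P, ∀ v ∈ I ∪ J, x v = a v := by
        intro x hx v hv
        rcases mem_union.1 hv with h1 | h1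
        · rw [hXI x (hPX hx) v h1, hXI a (hPX haP) v h1]
        · exact hPJ x hx v h1
      -- the rows
      have hpotX : m ^ (N - (I ∪ J).card) * κ ^ (I ∪ J).card * r ^ (i + 1)
          ≤ P.card * (2 * (r + 1)) ^ (i + 1) * 2 ^ (e + 1) := by
        rw [hcu]
        have h1 : m ^ (N - (I.card + J.card)) * κ ^ (I.card + J.card) * r ^ (i + 1) * ρ ^ J.card
            ≤ P.card * (2 * (r + 1)) ^ (i + 1) * 2 ^ (e + 1) * ρ ^ J.card := by
          calc m ^ (N - (I.card + J.card)) * κ ^ (I.card + J.card) * r ^ (i + 1) * ρ ^ J.card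
              = m ^ (N - (I.card + J.card)) * (κ * ρ) ^ J.card * κ ^ I.card * r ^ (i + 1) := by
                rw [pow_add κ, mul_pow]; ring
            _ ≤ m ^ (N - (I.card + J.card)) * m ^ J.card * κ ^ I.card * r ^ (i + 1) := by
                refine Nat.mul_le_mul_right _ (Nat.mul_le_mul_right _
                  (Nat.mul_le_mul_left _ (Nat.pow_le_pow_left hm _)))
            _ = (m ^ (N - I.card) * κ ^ I.card * r ^ i) * r := by
                rw [← pow_add, pow_succ r i]
                have : N - (I.card + J.card) + J.card = N - I.card := by omega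
                rw [this]; ring
            _ ≤ (X.card * (2 * (r + 1)) ^ i * 2 ^ (e + 1)) * r := Nat.mul_le_mul_right _ hXc
            _ = (X.card * r) * ((2 * (r + 1)) ^ i * 2 ^ (e + 1)) := by ring
            _ ≤ ((r + 1) * Xg.card) * ((2 * (r + 1)) ^ i * 2 ^ (e + 1)) :=
                Nat.mul_le_mul_right _ hXgc
            _ ≤ ((r + 1) * (2 * (P.card * ρ ^ J.card))) * ((2 * (r + 1)) ^ i * 2 ^ (e + 1)) := by
                refine Nat.mul_le_mul_right _ (Nat.mul_le_mul_left _
                  (hMc.trans (Nat.mul_le_mul_left _ hPc)))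
            _ = P.card * (2 * (r + 1)) ^ (i + 1) * 2 ^ (e + 1) * ρ ^ J.card := by
                rw [pow_succ (2 * (r + 1)) i]; ring
        exact Nat.le_of_mul_le_mul_right h1 (pow_pos hρ0 _)
      have hIJq : (I ∪ J).card ≤ q := by
        by_contra hgt
        have h1 : P.card ≤ m ^ (N - (I ∪ J).card) := by
          rw [← hNc]
          exact card_le_of_agree (I ∪ J) a hPI
        have h2 : κ ^ (I ∪ J).card * r ^ (i + 1) ≤ (2 * (r + 1)) ^ (i + 1) * 2 ^ (e + 1) := by
          have h3 : m ^ (N - (I ∪ J).card) * (κ ^ (I ∪ J).card * r ^ (i + 1))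
              ≤ m ^ (N - (I ∪ J).card) * ((2 * (r + 1)) ^ (i + 1) * 2 ^ (e + 1)) := by
            calc m ^ (N - (I ∪ J).card) * (κ ^ (I ∪ J).card * r ^ (i + 1))
                = m ^ (N - (I ∪ J).card) * κ ^ (I ∪ J).card * r ^ (i + 1) := by ring
              _ ≤ P.card * (2 * (r + 1)) ^ (i + 1) * 2 ^ (e + 1) := hpotX
              _ = P.card * ((2 * (r + 1)) ^ (i + 1) * 2 ^ (e + 1)) := by ring
              _ ≤ _ := Nat.mul_le_mul_right _ h1
          exact Nat.le_of_mul_le_mul_left h3 (pow_pos hm0 _)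
        have h4 : κ ^ (q + 1) * r ^ r ≤ (2 ^ (r + e + 3)) * r ^ r := by
          calc κ ^ (q + 1) * r ^ r ≤ κ ^ (I ∪ J).card * r ^ r :=
                Nat.mul_le_mul_right _ (Nat.pow_le_pow_right hκ0 (by omega))
            _ = κ ^ (I ∪ J).card * r ^ (i + 1) * r ^ (r - (i + 1)) := by
                rw [mul_assoc, ← pow_add]
                congr 2; omega
            _ ≤ ((2 * (r + 1)) ^ (i + 1) * 2 ^ (e + 1)) * (2 * (r + 1)) ^ (r - (i + 1)) :=
                Nat.mul_le_mul h2 (Nat.pow_le_pow_left (by omega) _)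
            _ = (2 * (r + 1)) ^ (i + 1 + (r - (i + 1))) * 2 ^ (e + 1) := by
                rw [pow_add (2 * (r + 1))]; ring
            _ = (2 * (r + 1)) ^ r * 2 ^ (e + 1) := by congr 2; omega
            _ = 2 ^ r * (r + 1) ^ r * 2 ^ (e + 1) := by rw [mul_pow]
            _ ≤ 2 ^ r * (4 * r ^ r) * 2 ^ (e + 1) :=
                Nat.mul_le_mul_right _ (Nat.mul_le_mul_left _ (succ_pow_le r hr1))
            _ = (2 ^ (r + e + 3)) * r ^ r := by rw [pow_add, pow_add, pow_add]; ring
        have h5 := Nat.le_of_mul_le_mul_right h4 (pow_pos (by omega) _)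
        omega
      -- the new gap
      obtain ⟨g', h', hg1, hg2, hg3, hg4, hg5⟩ := gap (J.image Fin.val) g h hh1
      have hg4' : h ≤ h' * 2 ^ J.card :=
        hg4.trans (Nat.mul_le_mul_left _ (Nat.pow_le_pow_right (by norm_num) card_image_le))
      have hJq : J.card ≤ q := by omega
      obtain ⟨Y1, hY1, hY1z, hYx⟩ := hG a haG J hJI hJq (fun v => decide ((v : ℕ) ≤ g'))
      have hY1c : 2 ^ (N * m) ≤ Y1.card * 2 ^ ((I ∪ J).card + (S + 2) * (i + 1) + (e + 2)) := by
        calc 2 ^ (N * m) ≤ Y.card * 2 ^ (I.card + (S + 2) * i + (e + 2)) := hYc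
          _ ≤ (2 ^ S * Y0.card) * 2 ^ (I.card + (S + 2) * i + (e + 2)) :=
              Nat.mul_le_mul_right _ hY0c
          _ ≤ (2 ^ S * (4 * 2 ^ J.card * Y1.card)) * 2 ^ (I.card + (S + 2) * i + (e + 2)) :=
              Nat.mul_le_mul_right _ (Nat.mul_le_mul_left _ hYx)
          _ = Y1.card * 2 ^ ((I ∪ J).card + (S + 2) * (i + 1) + (e + 2)) := by
              have : (I ∪ J).card + (S + 2) * (i + 1) + (e + 2) =
                  S + 2 + J.card + (I.card + (S + 2) * i + (e + 2)) := by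
                rw [hcu]; ring
              rw [this, pow_add, pow_add, pow_add]; ring
      have hhI' : ∀ v ∈ I ∪ J, (v : ℕ) ≤ g' ∨ g' + h' ≤ (v : ℕ) := by
        intro v hv
        rcases mem_union.1 hv with h1 | h1
        · rcases hhI v h1 with h2 | h2
          · left; omega
          · right; omega
        · exact hg5 v (mem_image_of_mem _ h1)
      have hY1I : ∀ y ∈ Y1, ∀ v ∈ I ∪ J, y (v, a v) = decide ((v : ℕ) ≤ g') := by
        intro y hy v hv
        by_cases h1 : v ∈ J
        · exact hY1z y hy v h1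
        · have h2 : v ∈ I := (mem_union.1 hv).resolve_right h1
          rw [hXI a (hPX haP) v h2, hYI y (hY0 (hY1 hy)) v h2]
          refine decide_eq_decide.2 ?_
          rcases hhI v h2 with h3 | h3
          · constructor <;> intro _ <;> omega
          · constructor <;> intro _ <;> omega
      have hpot' : L.card ≤ h' * 2 ^ (I ∪ J).card := by
        calc L.card ≤ h * 2 ^ I.card := hpot
          _ ≤ (h' * 2 ^ J.card) * 2 ^ I.card := Nat.mul_le_mul_right _ hg4'
          _ = h' * 2 ^ (I ∪ J).card := by rw [hcu, pow_add]; ring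
      rcases hcase with hc | hc
      · refine ih (i + 1) (by omega) mid hi hm3 hm4 hhl P Y1 (I ∪ J) a g' h' haP hPI hPd hpotX
          hY1c hY1I ?_ (by omega) hg3 hhI' hpot' hIJq
        intro x hx y hy
        exact ⟨hc x (hPM hx) y (hY1 hy),
          (hT x (hPX hx) y (hY0 (hY1 hy))).2⟩
      · refine ih (i + 1) (by omega) lo mid hm1 hm2 (by omega) P Y1 (I ∪ J) a g' h' haP hPI hPd
          hpotX hY1c hY1I ?_ (by omega) hg3 hhI' hpot' hIJq
        intro x hx y hy
        exact ⟨(hT x (hPX hx) y (hY0 (hY1 hy))).1,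
          hc x (hPM hx) y (hY1 hy)⟩
  -- the start
  have hYbig : 2 * 2 ^ (Fintype.card (Fin (L.card + 1)) * m)
      ≤ Y.card * 2 ^ (q + (S + 2) * r + e + 3) := by
    rw [hNc]
    calc 2 * 2 ^ (N * m) ≤ 2 * (Y.card * 2 ^ e) := Nat.mul_le_mul_left _ hY'
      _ = Y.card * 2 ^ (e + 1) := by rw [pow_succ]; ring
      _ ≤ _ := Nat.mul_le_mul_left _ (Nat.pow_le_pow_right (by norm_num) (by omega))
  obtain ⟨G, _, hGc, hG⟩ := good_rows (K := 2 ^ (e + 1)) (d := q)
    (p := q + (S + 2) * r + e + 3) Nat.one_le_two_pow (by omega) hρ0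
    (dense_univ (V := Fin (L.card + 1)) hρm) (by
      calc 32 * 2 ^ (e + 1) * (q + (S + 2) * r + e + 3) * q
          = 64 * 2 ^ e * 1 * (q + (S + 2) * r + e + 3) * q := by rw [pow_succ]; ring
        _ ≤ 64 * 2 ^ e * (r + 1) * (q + (S + 2) * r + e + 3) * q :=
            Nat.mul_le_mul_right _ (Nat.mul_le_mul_right _ (Nat.mul_le_mul_left _ (by omega)))
        _ ≤ ρ := hρ) Y hYbig
  have huniv : (univ : Finset (Fin (L.card + 1) → Fin m)).card = m ^ N := by
    rw [card_univ, Fintype.card_fun, hNc, Fintype.card_fin]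
  have hXG : m ^ N ≤ (X ∩ G).card * 2 ^ (e + 1) := by
    have h1 : X ⊆ (X ∩ G) ∪ (univ \ G) := by
      intro x hx
      by_cases h2 : x ∈ G
      · exact mem_union_left _ (mem_inter.2 ⟨hx, h2⟩)
      · exact mem_union_right _ (mem_sdiff.2 ⟨mem_univ _, h2⟩)
    have h2 := (card_le_card h1).trans (card_union_le _ _)
    rw [huniv] at hGc
    have h3 : X.card * 2 ^ (e + 1) ≤ ((X ∩ G).card + (univ \ G).card) * 2 ^ (e + 1) :=
      Nat.mul_le_mul_right _ h2
    rw [add_mul] at h3
    have h4 : 2 * m ^ N ≤ X.card * 2 ^ (e + 1) := by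
      calc 2 * m ^ N ≤ 2 * (X.card * 2 ^ e) := Nat.mul_le_mul_left _ hX'
        _ = X.card * 2 ^ (e + 1) := by rw [pow_succ]; ring
    omega
  have hXGn : (X ∩ G).Nonempty := by
    rw [← card_pos]
    by_contra hc
    have h1 : (X ∩ G).card = 0 := by omega
    rw [h1, zero_mul] at hXG
    have : 0 < m ^ N := pow_pos hm0 _
    omega
  obtain ⟨J, P, a, hJI, hPM, haP, hPJ, hPd, hPc⟩ := piece hρ0 ∅ hXGn
  rw [empty_union] at hPd
  have haG : a ∈ G := (mem_inter.1 (hPM haP)).2
  have hJN : J.card ≤ N := by rw [← hNc]; exact card_le_univ _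
  have hpot0 : m ^ (N - J.card) * κ ^ J.card ≤ P.card * 2 ^ (e + 1) := by
    have h1 : m ^ (N - J.card) * κ ^ J.card * ρ ^ J.card ≤ P.card * 2 ^ (e + 1) * ρ ^ J.card := by
      calc m ^ (N - J.card) * κ ^ J.card * ρ ^ J.card = m ^ (N - J.card) * (κ * ρ) ^ J.card := by
            rw [mul_pow]; ring
        _ ≤ m ^ (N - J.card) * m ^ J.card := Nat.mul_le_mul_left _ (Nat.pow_le_pow_left hm _)
        _ = m ^ N := by rw [← pow_add]; congr 1; omega
        _ ≤ (X ∩ G).card * 2 ^ (e + 1) := hXG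
        _ ≤ (P.card * ρ ^ J.card) * 2 ^ (e + 1) := Nat.mul_le_mul_right _ hPc
        _ = _ := by ring
    exact Nat.le_of_mul_le_mul_right h1 (pow_pos hρ0 _)
  have hJq : J.card ≤ q := by
    by_contra hgt
    have h1 : P.card ≤ m ^ (N - J.card) := by
      rw [← hNc]
      exact card_le_of_agree J a hPJ
    have h2 : m ^ (N - J.card) * κ ^ J.card ≤ m ^ (N - J.card) * 2 ^ (e + 1) :=
      hpot0.trans (Nat.mul_le_mul_right _ h1)
    have h3 : κ ^ J.card ≤ 2 ^ (e + 1) := Nat.le_of_mul_le_mul_left h2 (pow_pos hm0 _)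
    have h4 : κ ^ (q + 1) ≤ κ ^ J.card := Nat.pow_le_pow_right hκ0 (by omega)
    have h5 : 2 ^ (e + 1) ≤ 2 ^ (r + e + 3) := Nat.pow_le_pow_right (by norm_num) (by omega)
    omega
  obtain ⟨g', h', hg1, hg2, hg3, hg4, hg5⟩ := gap (J.image Fin.val) 0 L.card (by omega)
  have hg4' : L.card ≤ h' * 2 ^ J.card :=
    hg4.trans (Nat.mul_le_mul_left _ (Nat.pow_le_pow_right (by norm_num) card_image_le))
  obtain ⟨Y1, hY1, hY1z, hYx⟩ := hG a haG J hJI hJq (fun v => decide ((v : ℕ) ≤ g'))
  refine main r 0 (by omega) 0 M.len (Nat.zero_le _) (by omega) le_rfl P Y1 J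
    a g' h' haP hPJ hPd ?_ ?_ (fun y hy v hv => hY1z y hy v hv) ?_
    (by omega) hg3 (fun v hv => hg5 v (mem_image_of_mem _ hv)) hg4' hJq
  · rw [pow_zero, pow_zero, mul_one, mul_one]
    exact hpot0
  · calc 2 ^ (N * m) ≤ Y.card * 2 ^ e := hY'
      _ ≤ (4 * 2 ^ J.card * Y1.card) * 2 ^ e := Nat.mul_le_mul_right _ hYx
      _ = Y1.card * 2 ^ (J.card + (S + 2) * 0 + (e + 2)) := by
          rw [mul_zero, add_zero, pow_add, pow_add]; ring
  · intro x hx y hy
    refine ⟨le_rfl, ?_⟩
    intro hle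
    have h1 : M.out (alp L x) = true := hXa x (mem_inter.1 (hPM hx)).1
    have h2 : M.out (bet L y) = false := hYa y (hY1 hy)
    have h3 := hM.acc _ _ hle h1
    unfold Machine.out at h2
    rw [h3] at h2
    exact absurd h2 (by simp)

end Pool.Agent.HM94.NL
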