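import Pool.Agent.HM94.NL.Conn
import Pool.Agent.HM94.NL.MachineMap

/-!
# Directed reachability with few registers

The recursion of Savitch with blocks of `w` vertices.
-/

set_option autoImplicit false

namespace Pool.Agent.HM94.NL

open Finset Pool.Agent.HM94.MSC

section paths

variable {T m : ℕ} (x : Edge T m → Bool)

/-- There is a path of length `2 ^ j` from the vertex `u` of the level `t` to the vertex `v`. -/
def Pth : ℕ → ℕ → Fin m → Fin m → Prop
  | 0, t, u, v => ∃ h : t < T, x (⟨t, h⟩, u, v) = true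
  | j + 1, t, u, v => ∃ z, Pth j t u z ∧ Pth j (t + 2 ^ j) z v

theorem pth_iff (j : ℕ) : ∀ (t : ℕ) (u v : Fin m), Pth x j t u v ↔
    ∃ f : ℕ → Fin m, f t = u ∧ f (t + 2 ^ j) = v ∧
      ∀ s, t ≤ s → s < t + 2 ^ j → ∃ h : s < T, x (⟨s, h⟩, f s, f (s + 1)) = true := by
  induction j with
  | zero =>
    intro t u v
    rw [pow_zero]
    constructor
    · rintro ⟨h, hx⟩
      refine ⟨fun s => if s = t then u else v, by simp, by simp, ?_⟩
      intro s h1 h2
      have h3 : s = t := by omega
      subst h3
      refine ⟨h, ?_⟩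
      simpa using hx
    · rintro ⟨f, h1, h2, h3⟩
      obtain ⟨h, hx⟩ := h3 t le_rfl (by omega)
      rw [h1, h2] at hx
      exact ⟨h, hx⟩
  | succ j ih =>
    intro t u v
    have hp : 2 ^ (j + 1) = 2 ^ j + 2 ^ j := by rw [pow_succ]; ring
    rw [hp]
    constructor
    · rintro ⟨z, h1, h2⟩
      rw [ih] at h1 h2
      obtain ⟨f1, a1, a2, a3⟩ := h1
      obtain ⟨f2, b1, b2, b3⟩ := h2
      refine ⟨fun s => if s ≤ t + 2 ^ j then f1 s else f2 s, ?_, ?_, ?_⟩
      · simp only
        rw [if_pos (Nat.le_add_right _ _)]; exact a1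
      · have h3 : 0 < 2 ^ j := by positivity
        simp only
        rw [if_neg (by omega), ← add_assoc]; exact b2
      · intro s h3 h4
        rcases Nat.lt_or_ge s (t + 2 ^ j) with h5 | h5
        · obtain ⟨h, hx⟩ := a3 s h3 h5
          refine ⟨h, ?_⟩
          simp only
          rw [if_pos (by omega), if_pos (by omega)]
          exact hx
        · obtain ⟨h, hx⟩ := b3 s h5 (by omega)
          refine ⟨h, ?_⟩
          simp only
          rcases Nat.eq_or_lt_of_le h5 with h6 | h6
          · subst h6
            rw [if_pos le_rfl, if_neg (by omega), a2, ← b1]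
            exact hx
          · rw [if_neg (by omega), if_neg (by omega)]
            exact hx
    · rintro ⟨f, h1, h2, h3⟩
      refine ⟨f (t + 2 ^ j), ?_, ?_⟩
      · rw [ih]
        exact ⟨f, h1, rfl, fun s h4 h5 => h3 s h4 (by omega)⟩
      · rw [ih]
        exact ⟨f, rfl, by rw [add_assoc]; exact h2, fun s h4 h5 => h3 s (by omega) (by omega)⟩

end paths

theorem conn_iff {k m : ℕ} (x : Edge (2 ^ k) m → Bool) :
    conn x = true ↔ ∃ u v, Pth x k 0 u v := by
  unfold conn
  rw [decide_eq_true_eq]
  constructor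
  · rintro ⟨v, hv⟩
    refine ⟨v 0, v (Fin.last _), ?_⟩
    rw [pth_iff]
    refine ⟨fun s => v (Fin.ofNat (2 ^ k + 1) s), ?_, ?_, ?_⟩
    · rfl
    · simp only
      congr 1
      ext
      simp [Fin.ofNat]
    · intro s _ h2
      have h3 : s < 2 ^ k := by omega
      refine ⟨h3, ?_⟩
      have h4 := hv ⟨s, h3⟩
      have h5 : (Fin.ofNat (2 ^ k + 1) s) = (⟨s, h3⟩ : Fin (2 ^ k)).castSucc := by
        ext
        simp only [Fin.ofNat, Fin.val_castSucc]
        exact Nat.mod_eq_of_lt (by omega)
      have h6 : (Fin.ofNat (2 ^ k + 1) (s + 1)) = (⟨s, h3⟩ : Fin (2 ^ k)).succ := by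
        ext
        simp only [Fin.ofNat, Fin.val_succ]
        exact Nat.mod_eq_of_lt (by omega)
      simp only
      rw [h5, h6]
      exact h4
  · rintro ⟨u, v, h⟩
    rw [pth_iff] at h
    obtain ⟨f, _, _, h3⟩ := h
    refine ⟨fun s => f s, fun t => ?_⟩
    obtain ⟨_, hx⟩ := h3 t (Nat.zero_le _) (by rw [zero_add]; exact t.2)
    simpa using hx

section prog

variable {k c w T : ℕ}

/-- The registers: `k + 2` banks of `w` registers, a working register and the output. -/
abbrev Rg (k w : ℕ) : Type := (Fin (k + 2) × Fin w) ⊕ Bool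

/-- The bank `j`. -/
def bk (k j : ℕ) : Fin (k + 2) := Fin.ofNat (k + 2) j

theorem bk_val {j : ℕ} (h : j < k + 2) : ((bk k j : Fin (k + 2)) : ℕ) = j := by
  unfold bk
  simp only [Fin.ofNat]
  exact Nat.mod_eq_of_lt h

/-- The vertex number `a` of the block `A`. -/
def vx (A : Fin c) (a : Fin w) : Fin (c * w) := finProdFinEquiv (A, a)

/-- Using one edge. -/
def bstep (t : ℕ) (A C : Fin c) (src dst : Fin (k + 2)) (q : Fin w × Fin w) :
    List (Instr (Edge T (c * w)) (Rg k w)) :=
  [if h : t < T then .inp (.inr false) (⟨t, h⟩, vx A q.1, vx C q.2) else .cst (.inr false) false,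
    .and (.inr false) (.inr false) (.inl (src, q.1)),
    .or (.inl (dst, q.2)) (.inl (dst, q.2)) (.inr false)]

/-- Clearing a bank. -/
def clr (B : Fin (k + 2)) (b : Bool) : List (Instr (Edge T (c * w)) (Rg k w)) :=
  (List.finRange w).map fun u => .cst (.inl (B, u)) b

/-- The vertices of the block `C` of the level `t + 2 ^ j` which are reached from the marked vertices
of the block `A` of the level `t`. -/
noncomputable def segP : ℕ → ℕ → Fin c → Fin c → Fin (k + 2) → Fin (k + 2) →
    List (Instr (Edge T (c * w)) (Rg k w))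
  | 0, t, A, C, src, dst => (univ : Finset (Fin w × Fin w)).toList.flatMap (bstep t A C src dst)
  | j + 1, t, A, C, src, dst => (List.finRange c).flatMap fun D =>
      clr (bk k j) false ++ (segP j t A D src (bk k j) ++ segP j (t + 2 ^ j) D C (bk k j) dst)

/-- The effect of a part of the program. -/
structure Spec (σ σ' : Rg k w → Bool) (j : ℕ) (dst : Fin (k + 2)) (F : Fin w → Prop) : Prop where
  get : ∀ b, σ' (.inl (dst, b)) = true ↔ (σ (.inl (dst, b)) = true ∨ F b)
  keep : ∀ (B : Fin (k + 2)) (u : Fin w), j ≤ (B : ℕ) → B ≠ dst → σ' (.inl (B, u)) = σ (.inl (B, u))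
  out : σ' (.inr true) = σ (.inr true)

theorem run_app {ι R : Type} [DecidableEq R] (x : ι → Bool) (P Q : List (Instr ι R))
    (σ : R → Bool) : run x (P ++ Q) σ = run x Q (run x P σ) := by
  unfold run
  rw [List.foldl_append]

theorem run_nil {ι R : Type} [DecidableEq R] (x : ι → Bool) (σ : R → Bool) :
    run x ([] : List (Instr ι R)) σ = σ := rfl

theorem spec_flatMap {ι : Type} {α : Type} (x : ι → Bool) (j : ℕ) {src dst : Fin (k + 2)}
    (hsrc : j ≤ (src : ℕ)) (hne : src ≠ dst) (s : Fin w → Bool) (P : α → List (Instr ι (Rg k w)))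
    (F : α → Fin w → Prop) : ∀ (l : List α),
    (∀ d ∈ l, ∀ σ : Rg k w → Bool, (∀ u, σ (.inl (src, u)) = s u) →
      Spec σ (run x (P d) σ) j dst (F d)) →
    ∀ σ : Rg k w → Bool, (∀ u, σ (.inl (src, u)) = s u) →
      Spec σ (run x (l.flatMap P) σ) j dst (fun b => ∃ d ∈ l, F d b) := by
  intro l
  induction l with
  | nil =>
    intro _ σ _
    rw [List.flatMap_nil, run_nil]
    exact ⟨fun b => by simp, fun _ _ _ _ => rfl, rfl⟩
  | cons d l ih =>
    intro h σ hσ
    rw [List.flatMap_cons, run_app]
    have h1 := h d (by simp) σ hσ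
    have h2 := ih (fun d' hd' => h d' (List.mem_cons_of_mem _ hd')) (run x (P d) σ)
      (fun u => by rw [h1.keep src u hsrc hne, hσ])
    refine ⟨fun b => ?_, fun B u hB hBd => ?_, ?_⟩
    · rw [h2.get, h1.get]
      simp only [List.mem_cons]
      constructor
      · rintro ((h3 | h3) | ⟨d', h4, h5⟩)
        · exact Or.inl h3
        · exact Or.inr ⟨d, Or.inl rfl, h3⟩
        · exact Or.inr ⟨d', Or.inr h4, h5⟩
      · rintro (h3 | ⟨d', (rfl | h4), h5⟩)
        · exact Or.inl (Or.inl h3)
        · exact Or.inl (Or.inr h5)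
        · exact Or.inr ⟨d', h4, h5⟩
    · rw [h2.keep B u hB hBd, h1.keep B u hB hBd]
    · rw [h2.out, h1.out]

theorem bstep_spec (x : Edge T (c * w) → Bool) (t : ℕ) (A C : Fin c) {src dst : Fin (k + 2)}
    (q : Fin w × Fin w) (s : Fin w → Bool) (σ : Rg k w → Bool)
    (hσ : ∀ u, σ (.inl (src, u)) = s u) :
    Spec σ (run x (bstep t A C src dst q) σ) 0 dst
      (fun b => b = q.2 ∧ s q.1 = true ∧ Pth x 0 t (vx A q.1) (vx C q.2)) := by
  classical
  set e : Bool := decide (Pth x 0 t (vx A q.1) (vx C q.2)) with he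
  have hrun : run x (bstep t A C src dst q) σ = Function.update (Function.update
      (Function.update σ (.inr false) e) (.inr false) (e && s q.1)) (.inl (dst, q.2))
        (σ (.inl (dst, q.2)) || (e && s q.1)) := by
    unfold bstep run
    simp only [List.foldl_cons, List.foldl_nil]
    have h1 : Instr.step x σ (if h : t < T then
        (.inp (.inr false) (⟨t, h⟩, vx A q.1, vx C q.2) : Instr (Edge T (c * w)) (Rg k w))
        else .cst (.inr false) false) = Function.update σ (.inr false) e := by
      by_cases h : t < T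
      · rw [dif_pos h]
        have h2 : e = x (⟨t, h⟩, vx A q.1, vx C q.2) := by
          rw [he, Bool.eq_iff_iff, decide_eq_true_eq]
          constructor
          · rintro ⟨_, h3⟩; exact h3
          · intro h3; exact ⟨h, h3⟩
        rw [h2]
        rfl
      · rw [dif_neg h]
        have h2 : e = false := by
          rw [he, decide_eq_false_iff_not]
          rintro ⟨h3, _⟩
          exact h h3
        rw [h2]
        rfl
    rw [h1]
    simp only [Instr.step]
    rw [Function.update_self, Function.update_of_ne (by simp), hσ, Function.update_self,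
      Function.update_of_ne (by simp), Function.update_of_ne (by simp)]
  rw [hrun]
  refine ⟨fun b => ?_, fun B u _ hB => ?_, ?_⟩
  · by_cases hb : b = q.2
    · subst hb
      rw [Function.update_self, Bool.or_eq_true, Bool.and_eq_true, he, decide_eq_true_eq]
      constructor
      · rintro (h1 | ⟨h1, h2⟩)
        · exact Or.inl h1
        · exact Or.inr ⟨rfl, h2, h1⟩
      · rintro (h1 | ⟨_, h2, h1⟩)
        · exact Or.inl h1
        · exact Or.inr ⟨h1, h2⟩
    · rw [Function.update_of_ne (by simpa using hb), Function.update_of_ne (by simp),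
        Function.update_of_ne (by simp)]
      constructor
      · intro h1; exact Or.inl h1
      · rintro (h1 | ⟨h2, _⟩)
        · exact h1
        · exact absurd h2 hb
  · rw [Function.update_of_ne (by simp [hB]), Function.update_of_ne (by simp),
      Function.update_of_ne (by simp)]
  · rw [Function.update_of_ne (by simp), Function.update_of_ne (by simp),
      Function.update_of_ne (by simp)]

theorem clr_run (x : Edge T (c * w) → Bool) (B : Fin (k + 2)) (b : Bool) (σ : Rg k w → Bool) :
    (∀ u, run x (clr B b : List (Instr (Edge T (c * w)) (Rg k w))) σ (.inl (B, u)) = b) ∧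
    (∀ r, (∀ u, r ≠ .inl (B, u)) →
      run x (clr B b : List (Instr (Edge T (c * w)) (Rg k w))) σ r = σ r) := by
  unfold clr
  have hgen : ∀ (l : List (Fin w)) (σ : Rg k w → Bool),
      (∀ u ∈ l, run x (l.map fun u => (.cst (.inl (B, u)) b : Instr (Edge T (c * w)) (Rg k w))) σ
        (.inl (B, u)) = b) ∧
      (∀ u, σ (.inl (B, u)) = b → run x (l.map fun u =>
        (.cst (.inl (B, u)) b : Instr (Edge T (c * w)) (Rg k w))) σ (.inl (B, u)) = b) ∧
      (∀ r, (∀ u, r ≠ .inl (B, u)) → run x (l.map fun u =>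
        (.cst (.inl (B, u)) b : Instr (Edge T (c * w)) (Rg k w))) σ r = σ r) := by
    intro l
    induction l with
    | nil => intro σ; exact ⟨by simp, fun u h => h, fun r _ => rfl⟩
    | cons v l ih =>
      intro σ
      have hrun : run x ((v :: l).map fun u =>
          (.cst (.inl (B, u)) b : Instr (Edge T (c * w)) (Rg k w))) σ =
          run x (l.map fun u => (.cst (.inl (B, u)) b : Instr (Edge T (c * w)) (Rg k w)))
            (Function.update σ (.inl (B, v)) b) := rfl
      rw [hrun]
      obtain ⟨h1, h2, h3⟩ := ih (Function.update σ (.inl (B, v)) b)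
      refine ⟨?_, ?_, ?_⟩
      · intro u hu
        rcases List.mem_cons.1 hu with h | h
        · subst h
          exact h2 _ (Function.update_self _ _ _)
        · exact h1 u h
      · intro u hu
        refine h2 u ?_
        by_cases huv : u = v
        · subst huv
          exact Function.update_self _ _ _
        · rw [Function.update_of_ne (by simpa using huv)]
          exact hu
      · intro r hr
        rw [h3 r hr, Function.update_of_ne (hr v)]
  obtain ⟨h1, _, h3⟩ := hgen (List.finRange w) σ
  exact ⟨fun u => h1 u (List.mem_finRange u), h3⟩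

theorem seg_spec (x : Edge T (c * w) → Bool) : ∀ (j : ℕ), j ≤ k → ∀ (t : ℕ) (A C : Fin c)
    (src dst : Fin (k + 2)), j ≤ (src : ℕ) → j ≤ (dst : ℕ) → src ≠ dst → ∀ σ : Rg k w → Bool,
    Spec σ (run x (segP j t A C src dst) σ) j dst
      (fun b => ∃ a, σ (.inl (src, a)) = true ∧ Pth x j t (vx A a) (vx C b)) := by
  intro j
  induction j with
  | zero =>
    intro _ t A C src dst hsrc _ hne σ
    have h1 := spec_flatMap x 0 hsrc hne (fun u => σ (.inl (src, u))) (bstep t A C src dst)
      (fun q b => b = q.2 ∧ σ (.inl (src, q.1)) = true ∧ Pth x 0 t (vx A q.1) (vx C q.2))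
      (univ : Finset (Fin w × Fin w)).toList
      (fun q _ σ' hσ' => bstep_spec x t A C q _ σ' hσ') σ (fun _ => rfl)
    refine ⟨fun b => ?_, h1.keep, h1.out⟩
    refine (h1.get b).trans (or_congr_right ?_)
    constructor
    · rintro ⟨q, _, h2, h3, h4⟩
      subst h2
      exact ⟨q.1, h3, h4⟩
    · rintro ⟨a, h2, h3⟩
      exact ⟨(a, b), by simp, rfl, h2, h3⟩
  | succ j ih =>
    intro hjk t A C src dst hsrc hdst hne σ
    have hbv : ((bk k j : Fin (k + 2)) : ℕ) = j := bk_val (by omega)
    have hb1 : src ≠ bk k j := fun h => by rw [h, hbv] at hsrc; omega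
    have hb2 : bk k j ≠ dst := fun h => by rw [← h, hbv] at hdst; omega
    have h1 := spec_flatMap x (j + 1) hsrc hne (fun u => σ (.inl (src, u)))
      (fun D => clr (bk k j) false ++ (segP j t A D src (bk k j) ++
        segP j (t + 2 ^ j) D C (bk k j) dst))
      (fun D b => ∃ z, (∃ a, σ (.inl (src, a)) = true ∧ Pth x j t (vx A a) (vx D z)) ∧
        Pth x j (t + 2 ^ j) (vx D z) (vx C b)) (List.finRange c) (by
      intro D _ σ' hσ'
      rw [run_app, run_app]
      set σ1 := run x (clr (bk k j) false : List (Instr (Edge T (c * w)) (Rg k w))) σ' with hσ1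
      obtain ⟨c1, c2⟩ := clr_run x (bk k j) false σ'
      have s1 := ih (by omega) t A D src (bk k j) (by omega) (by omega) hb1 σ1
      set σ2 := run x (segP j t A D src (bk k j)) σ1 with hσ2
      have s2 := ih (by omega) (t + 2 ^ j) D C (bk k j) dst (by omega) (by omega) hb2 σ2
      have k1 : ∀ (B : Fin (k + 2)) (u : Fin w), B ≠ bk k j →
          σ1 (.inl (B, u)) = σ' (.inl (B, u)) := fun B u hB => c2 _ (fun u' h => by
        simp only [Sum.inl.injEq, Prod.mk.injEq] at h
        exact hB h.1)
      have hz : ∀ z, σ2 (.inl (bk k j, z)) = true ↔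
          ∃ a, σ (.inl (src, a)) = true ∧ Pth x j t (vx A a) (vx D z) := by
        intro z
        have c1' : σ1 (.inl (bk k j, z)) = false := c1 z
        rw [s1.get, c1']
        simp only [Bool.false_eq_true, false_or]
        refine exists_congr fun a => ?_
        rw [k1 src a hb1, hσ']
      refine ⟨fun b => ?_, fun B u hB hBd => ?_, ?_⟩
      · rw [s2.get, s1.keep dst b (by omega) (Ne.symm hb2), k1 dst b (Ne.symm hb2)]
        refine or_congr_right (exists_congr fun z => ?_)
        rw [hz]
      · have hBj : B ≠ bk k j := fun h => by rw [h, hbv] at hB; omega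
        rw [s2.keep B u (by omega) hBd, s1.keep B u (by omega) hBj, k1 B u hBj]
      · rw [s2.out, s1.out]
        exact c2 _ (by simp)) σ (fun _ => rfl)
    refine ⟨fun b => ?_, h1.keep, h1.out⟩
    refine (h1.get b).trans (or_congr_right ?_)
    constructor
    · rintro ⟨D, _, z, ⟨a, h2, h3⟩, h4⟩
      exact ⟨a, h2, vx D z, h3, h4⟩
    · rintro ⟨a, h2, v, h3, h4⟩
      obtain ⟨⟨D, z⟩, hv⟩ := (finProdFinEquiv : Fin c × Fin w ≃ Fin (c * w)).surjective v
      have hv' : vx D z = v := hv
      refine ⟨D, List.mem_finRange D, z, ⟨a, h2, ?_⟩, ?_⟩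
      · rw [hv']; exact h3
      · rw [hv']; exact h4

/-- Collecting the marked vertices. -/
def colP (B : Fin (k + 2)) : List (Instr (Edge T (c * w)) (Rg k w)) :=
  (List.finRange w).map fun u => .or (.inr true) (.inr true) (.inl (B, u))

theorem colP_run (x : Edge T (c * w) → Bool) (B : Fin (k + 2)) (σ : Rg k w → Bool) :
    run x (colP B : List (Instr (Edge T (c * w)) (Rg k w))) σ (.inr true) = true ↔
      (σ (.inr true) = true ∨ ∃ u, σ (.inl (B, u)) = true) := by
  unfold colP
  have hgen : ∀ (l : List (Fin w)) (σ : Rg k w → Bool),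
      run x (l.map fun u => (.or (.inr true) (.inr true) (.inl (B, u)) :
        Instr (Edge T (c * w)) (Rg k w))) σ (.inr true) = true ↔
      (σ (.inr true) = true ∨ ∃ u ∈ l, σ (.inl (B, u)) = true) := by
    intro l
    induction l with
    | nil => intro σ; simp [run_nil]
    | cons v l ih =>
      intro σ
      have hrun : run x ((v :: l).map fun u => (.or (.inr true) (.inr true) (.inl (B, u)) :
          Instr (Edge T (c * w)) (Rg k w))) σ =
          run x (l.map fun u => (.or (.inr true) (.inr true) (.inl (B, u)) :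
          Instr (Edge T (c * w)) (Rg k w)))
            (Function.update σ (.inr true) (σ (.inr true) || σ (.inl (B, v)))) := rfl
      rw [hrun, ih, Function.update_self, Bool.or_eq_true]
      have h1 : ∀ u, Function.update σ (.inr true) (σ (.inr true) || σ (.inl (B, v)))
          (.inl (B, u)) = σ (.inl (B, u)) := fun u => Function.update_of_ne (by simp) _ _
      simp only [h1, List.mem_cons]
      constructor
      · rintro ((h2 | h2) | ⟨u, h3, h4⟩)
        · exact Or.inl h2
        · exact Or.inr ⟨v, Or.inl rfl, h2⟩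
        · exact Or.inr ⟨u, Or.inr h3, h4⟩
      · rintro (h2 | ⟨u, (rfl | h3), h4⟩)
        · exact Or.inl (Or.inl h2)
        · exact Or.inl (Or.inr h4)
        · exact Or.inr ⟨u, h3, h4⟩
  rw [hgen]
  simp

/-- The program. -/
noncomputable def savP (k c w : ℕ) : List (Instr (Edge (2 ^ k) (c * w)) (Rg k w)) :=
  (univ : Finset (Fin c × Fin c)).toList.flatMap fun q =>
    clr (bk k k) true ++ (clr (bk k (k + 1)) false ++
      (segP k 0 q.1 q.2 (bk k k) (bk k (k + 1)) ++ colP (bk k (k + 1))))

theorem savP_exec (x : Edge (2 ^ k) (c * w) → Bool) :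
    exec x (savP k c w) (.inr true) = conn x := by
  rw [Bool.eq_iff_iff, conn_iff]
  unfold exec savP
  have hbk : ((bk k k : Fin (k + 2)) : ℕ) = k := bk_val (by omega)
  have hbk1 : ((bk k (k + 1) : Fin (k + 2)) : ℕ) = k + 1 := bk_val (by omega)
  have hne : bk k k ≠ bk k (k + 1) := fun h => by
    have := congrArg Fin.val h
    rw [hbk, hbk1] at this
    omega
  have hgen : ∀ (l : List (Fin c × Fin c)) (σ : Rg k w → Bool),
      run x (l.flatMap fun q =>
        clr (bk k k) true ++ (clr (bk k (k + 1)) false ++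
        (segP k 0 q.1 q.2 (bk k k) (bk k (k + 1)) ++ colP (bk k (k + 1))))) σ (.inr true) = true ↔
      (σ (.inr true) = true ∨ ∃ q ∈ l, ∃ a b, Pth x k 0 (vx q.1 a) (vx q.2 b)) := by
    intro l
    induction l with
    | nil => intro σ; simp [run_nil]
    | cons q l ih =>
      intro σ
      rw [List.flatMap_cons, run_app, ih, run_app, run_app, run_app, colP_run]
      set σ1 := run x (clr (bk k k) true : List (Instr (Edge (2 ^ k) (c * w)) (Rg k w))) σ with hσ1
      obtain ⟨a1, a2⟩ := clr_run x (bk k k) true σ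
      set σ2 := run x (clr (bk k (k + 1)) false : List (Instr (Edge (2 ^ k) (c * w)) (Rg k w))) σ1
        with hσ2
      obtain ⟨b1, b2⟩ := clr_run x (bk k (k + 1)) false σ1
      have s := seg_spec x k le_rfl 0 q.1 q.2 (bk k k) (bk k (k + 1)) (by omega) (by omega) hne σ2
      have h1 : σ2 (.inr true) = σ (.inr true) := by
        rw [hσ2, b2 _ (by simp), hσ1, a2 _ (by simp)]
      have h2 : ∀ u, σ2 (.inl (bk k k, u)) = true := by
        intro u
        rw [hσ2, b2 _ (fun u' h => by
          simp only [Sum.inl.injEq, Prod.mk.injEq] at h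
          exact hne h.1)]
        exact a1 u
      have h3 : ∀ u, σ2 (.inl (bk k (k + 1), u)) = false := b1
      rw [s.out, h1]
      have h4 : (∃ u, run x (segP k 0 q.1 q.2 (bk k k) (bk k (k + 1))) σ2
          (.inl (bk k (k + 1), u)) = true) ↔ ∃ a b, Pth x k 0 (vx q.1 a) (vx q.2 b) := by
        constructor
        · rintro ⟨u, hu⟩
          rw [s.get, h3] at hu
          simp only [Bool.false_eq_true, false_or] at hu
          obtain ⟨a, _, ha⟩ := hu
          exact ⟨a, u, ha⟩
        · rintro ⟨a, b, hab⟩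
          refine ⟨b, ?_⟩
          rw [s.get]
          exact Or.inr ⟨a, h2 a, hab⟩
      rw [h4]
      simp only [List.mem_cons]
      constructor
      · rintro ((h5 | h5) | ⟨q', h6, h7⟩)
        · exact Or.inl h5
        · exact Or.inr ⟨q, Or.inl rfl, h5⟩
        · exact Or.inr ⟨q', Or.inr h6, h7⟩
      · rintro (h5 | ⟨q', (rfl | h6), h7⟩)
        · exact Or.inl (Or.inl h5)
        · exact Or.inl (Or.inr h7)
        · exact Or.inr ⟨q', h6, h7⟩
  rw [hgen]
  simp only [Bool.false_eq_true, false_or]
  constructor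
  · rintro ⟨q, _, a, b, h⟩
    exact ⟨_, _, h⟩
  · rintro ⟨u, v, h⟩
    obtain ⟨⟨A, a⟩, hu⟩ := (finProdFinEquiv : Fin c × Fin w ≃ Fin (c * w)).surjective u
    obtain ⟨⟨C, b⟩, hv⟩ := (finProdFinEquiv : Fin c × Fin w ≃ Fin (c * w)).surjective v
    refine ⟨(A, C), by simp, a, b, ?_⟩
    have hu' : vx A a = u := hu
    have hv' : vx C b = v := hv
    rw [hu', hv']
    exact h

end prog

end Pool.Agent.HM94.NL
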