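import Pool.Agent.HM94.NL.Lower
import Pool.Agent.HM94.NL.Linear

/-!
# Random machines
-/

set_option autoImplicit false

namespace Pool.Agent.HM94.NL

open Finset Pool.Agent.HM94.MSC

/-- The space of a machine with the states `Q` is at most `S`: there are at most `2 ^ S` states, or
the states are ordered like the contents of `S` registers with values in a linear order (for instance
`S` real numbers). -/
def SpaceLE (Q : Type) [Preorder Q] (S : ℕ) : Prop :=
  (Finite Q ∧ Nat.card Q ≤ 2 ^ S) ∨
    ∃ (R : Type) (_ : LinearOrder R) (f : Q → Fin S → R), ∀ σ τ : Q, σ ≤ τ ↔ f σ ≤ f τ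

theorem SpaceLE.simple {Q : Type} [Preorder Q] {S : ℕ} (h : SpaceLE Q S) {K : ℕ} (hK : 1 ≤ K) :
    Simple Q K (S * Nat.clog 2 (S * K + 1)) := by
  classical
  rcases h with ⟨hf, hc⟩ | ⟨R, _, f, hf⟩
  · have : Fintype Q := Fintype.ofFinite Q
    refine simple_of_card ?_ K
    rw [← Nat.card_eq_fintype_card]
    refine hc.trans (Nat.pow_le_pow_right (by norm_num) ?_)
    rcases Nat.eq_zero_or_pos S with hS | hS
    · rw [hS]; simp
    · refine Nat.le_mul_of_pos_right _ (Nat.clog_pos (by norm_num) ?_)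
      have : 1 ≤ S * K := Nat.mul_pos hS hK
      omega
  · intro α β X Y a b
    rcases Nat.eq_zero_or_pos S with hS | hS
    · subst hS
      refine ⟨X, subset_rfl, Y, subset_rfl, Nat.mul_le_mul_left _ (Nat.sub_le _ _), by simp, ?_⟩
      intro x _
      left
      intro y _
      rw [hf]
      intro i
      exact i.elim0
    · obtain ⟨X0, h1, Y0, h2, h3, h4, h5⟩ := simple_of_linear (R := R) (w := S) (K := K)
        (σ := S * Nat.clog 2 (S * K + 1)) hS hK (by
          rw [mul_comm S (Nat.clog 2 (S * K + 1)), pow_mul]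
          exact Nat.pow_le_pow_left (Nat.le_pow_clog (by norm_num) _) _)
        α β X Y (fun x => f (a x)) (fun y => f (b y))
      refine ⟨X0, h1, Y0, h2, h3, h4, fun x hx => ?_⟩
      rcases h5 x hx with h6 | h6
      · left
        intro y hy
        rw [hf]; exact h6 y hy
      · right
        intro y hy
        rw [hf]; exact h6 y hy

/-- Averaging. -/
theorem average {Ω R C : Type} [Fintype Ω] [Fintype R] [Fintype C] (hR : 0 < Fintype.card R)
    (hC : 0 < Fintype.card C) (μ : Ω → ℝ) (hμ0 : ∀ ω, 0 ≤ μ ω) (hμ1 : ∑ ω, μ ω = 1) (e : ℕ)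
    (u : Ω → R → Bool) (v : Ω → C → Bool)
    (hadv : ∀ x y, (∑ ω, if v ω y = true then μ ω else 0) + 1 / 2 ^ e ≤
      ∑ ω, if u ω x = true then μ ω else 0) :
    ∃ ω, Fintype.card R ≤ (univ.filter (fun x => u ω x = true)).card * 2 ^ e ∧
      Fintype.card C ≤ (univ.filter (fun y => v ω y = false)).card * 2 ^ e := by
  set a : Ω → ℝ := fun ω => ∑ x : R, if u ω x = true then 1 else 0 with ha
  set b : Ω → ℝ := fun ω => ∑ y : C, if v ω y = true then 1 else 0 with hb
  have hR0 : (0 : ℝ) < Fintype.card R := by exact_mod_cast hR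
  have hC0 : (0 : ℝ) < Fintype.card C := by exact_mod_cast hC
  have hex : ∃ ω, b ω / Fintype.card C + 1 / 2 ^ e ≤ a ω / Fintype.card R := by
    by_contra hcon
    push Not at hcon
    have h1 : ∀ ω, μ ω * (a ω / Fintype.card R) ≤ μ ω * (b ω / Fintype.card C + 1 / 2 ^ e) :=
      fun ω => mul_le_mul_of_nonneg_left (hcon ω).le (hμ0 ω)
    have hpos : ∃ ω, 0 < μ ω := by
      by_contra hc
      push Not at hc
      have : ∑ ω, μ ω ≤ 0 := sum_nonpos fun ω _ => hc ω
      linarith
    obtain ⟨ω0, hω0⟩ := hpos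
    have h2 : ∑ ω, μ ω * (a ω / Fintype.card R) < ∑ ω, μ ω * (b ω / Fintype.card C + 1 / 2 ^ e) :=
      sum_lt_sum (fun ω _ => h1 ω) ⟨ω0, mem_univ _, mul_lt_mul_of_pos_left (hcon ω0) hω0⟩
    have h3 : ∑ ω, μ ω * (b ω / Fintype.card C + 1 / 2 ^ e) =
        (∑ y : C, ∑ ω, if v ω y = true then μ ω else 0) / Fintype.card C + 1 / 2 ^ e := by
      have h4 : ∀ ω, μ ω * (b ω / Fintype.card C + 1 / 2 ^ e) =
          (∑ y : C, if v ω y = true then μ ω else 0) / Fintype.card C +
            μ ω * (1 / 2 ^ e) := by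
        intro ω
        rw [mul_add, ← mul_div_assoc, hb]
        congr 2
        simp only
        rw [mul_sum]
        refine sum_congr rfl fun y _ => ?_
        split_ifs <;> simp
      rw [sum_congr rfl fun ω _ => h4 ω, sum_add_distrib, ← sum_mul, hμ1, one_mul, ← sum_div,
        sum_comm]
    have h5 : ∑ ω, μ ω * (a ω / Fintype.card R) =
        (∑ x : R, ∑ ω, if u ω x = true then μ ω else 0) / Fintype.card R := by
      have h4 : ∀ ω, μ ω * (a ω / Fintype.card R) =
          (∑ x : R, if u ω x = true then μ ω else 0) / Fintype.card R := by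
        intro ω
        rw [← mul_div_assoc, ha]
        congr 1
        simp only
        rw [mul_sum]
        refine sum_congr rfl fun y _ => ?_
        split_ifs <;> simp
      rw [sum_congr rfl fun ω _ => h4 ω, ← sum_div, sum_comm]
    rw [h3, h5] at h2
    set F : R → ℝ := fun x => ∑ ω, if u ω x = true then μ ω else 0 with hF
    set G : C → ℝ := fun y => ∑ ω, if v ω y = true then μ ω else 0 with hG
    have h7 : ∀ x : R, (∑ y : C, G y) / Fintype.card C + 1 / 2 ^ e ≤ F x := by
      intro x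
      have h8 : ∑ y : C, (G y + 1 / 2 ^ e) ≤ ∑ _y : C, F x := sum_le_sum fun y _ => hadv x y
      rw [sum_add_distrib, sum_const, sum_const, card_univ, nsmul_eq_mul, nsmul_eq_mul] at h8
      rw [div_add' _ _ _ hC0.ne', div_le_iff₀ hC0]
      linarith
    have h8 : ∑ _x : R, ((∑ y : C, G y) / Fintype.card C + 1 / 2 ^ e) ≤ ∑ x : R, F x :=
      sum_le_sum fun x _ => h7 x
    rw [sum_const, card_univ, nsmul_eq_mul] at h8
    have h9 : (∑ y : C, G y) / Fintype.card C + 1 / 2 ^ e ≤ (∑ x : R, F x) / Fintype.card R := by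
      rw [le_div_iff₀ hR0]
      linarith
    linarith
  obtain ⟨ω, hω⟩ := hex
  have hba : a ω = ((univ.filter (fun x : R => u ω x = true)).card : ℝ) := by
    rw [ha]
    simp only
    rw [← sum_filter, sum_const, nsmul_eq_mul, mul_one]
  have hbb : b ω = (Fintype.card C : ℝ) -
      ((univ.filter (fun y : C => v ω y = false)).card : ℝ) := by
    rw [hb]
    simp only
    rw [← sum_filter, sum_const, nsmul_eq_mul, mul_one]
    have h1 : (univ.filter (fun y : C => v ω y = true)).card +
        (univ.filter (fun y : C => v ω y = false)).card = Fintype.card C := by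
      rw [← card_univ, ← card_filter_add_card_filter_not (s := (univ : Finset C))
        (fun y => v ω y = true)]
      congr 2
      ext y
      rw [mem_filter, mem_filter]
      rcases v ω y with _ | _ <;> simp
    have h2 : ((univ.filter (fun y : C => v ω y = true)).card : ℝ) +
        ((univ.filter (fun y : C => v ω y = false)).card : ℝ) = Fintype.card C := by
      exact_mod_cast h1
    linarith
  have hb0 : 0 ≤ b ω := by
    rw [hb]
    exact sum_nonneg fun y _ => by split_ifs <;> norm_num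
  have ha1 : a ω ≤ Fintype.card R := by
    rw [hba]
    have := card_le_univ (univ.filter (fun x : R => u ω x = true))
    exact_mod_cast this
  have he0 : (0 : ℝ) < 2 ^ e := by positivity
  refine ⟨ω, ?_, ?_⟩
  · have h1 : (1 : ℝ) / 2 ^ e ≤ a ω / Fintype.card R := by
      have : 0 ≤ b ω / Fintype.card C := div_nonneg hb0 hC0.le
      linarith
    rw [div_le_div_iff₀ he0 hR0, one_mul, hba] at h1
    exact_mod_cast h1
  · have h1 : b ω / Fintype.card C + 1 / 2 ^ e ≤ 1 := by
      have : a ω / Fintype.card R ≤ 1 := by rw [div_le_one hR0]; exact ha1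
      linarith
    have h2 : (1 : ℝ) / 2 ^ e ≤ (Fintype.card C - b ω) / Fintype.card C := by
      rw [sub_div, div_self hC0.ne']
      linarith
    rw [div_le_div_iff₀ he0 hC0, one_mul, hbb, sub_sub_cancel] at h2
    exact_mod_cast h2

/-- The lower bound for random machines: whatever the distribution on the machines, they do not
accept the graphs with a path with a probability which is by `1 / 2 ^ e` larger than for the graphs
without a path. -/
theorem conn_random {T m q r κ S ρ e : ℕ} (L : Finset (Fin T)) {Ω : Type} [Fintype Ω]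
    (μ : Ω → ℝ) (hμ0 : ∀ ω, 0 ≤ μ ω) (hμ1 : ∑ ω, μ ω = 1)
    {Q : Ω → Type} [∀ ω, Preorder (Q ω)] (M : (ω : Ω) → Machine (Edge T m) (Q ω))
    (hM : ∀ ω, (M ω).MonoIn {e | e.1 ∈ L}) (hm0 : 0 < m) (hL : L.card ≠ 0)
    (hadv : ∀ x x' : Edge T m → Bool, conn x = true → uconn x' = false →
      (∑ ω, if (M ω).out x' = true then μ ω else 0) + 1 / 2 ^ e ≤
        ∑ ω, if (M ω).out x = true then μ ω else 0)
    (hQ : ∀ ω, Simple (Q ω) (2 * (r + 1)) S) (hlen : ∀ ω, (M ω).len ≤ 2 ^ r)
    (hκ : 2 ^ (r + e + 3) < κ ^ (q + 1))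
    (hρ : 64 * 2 ^ e * (r + 1) * (q + (S + 2) * r + e + 3) * q ≤ ρ) (hρ2 : 2 ≤ ρ)
    (hm : κ * ρ ≤ m) : L.card ≤ 2 ^ q := by
  have hRc : Fintype.card (Fin (L.card + 1) → Fin m) = m ^ (L.card + 1) := by
    rw [Fintype.card_fun, Fintype.card_fin, Fintype.card_fin]
  have hCc : Fintype.card (Fin (L.card + 1) × Fin m → Bool) = 2 ^ ((L.card + 1) * m) := by
    rw [Fintype.card_fun, Fintype.card_prod, Fintype.card_fin, Fintype.card_fin, Fintype.card_bool]
  obtain ⟨ω, h1, h2⟩ := average (R := Fin (L.card + 1) → Fin m)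
    (C := Fin (L.card + 1) × Fin m → Bool) (by rw [hRc]; positivity) (by rw [hCc]; positivity)
    μ hμ0 hμ1 e (fun ω x => (M ω).out (alp L x)) (fun ω y => (M ω).out (bet L y))
    (fun x y => hadv _ _ (conn_alp L x) (uconn_bet L hL y))
  rw [hRc] at h1
  rw [hCc] at h2
  exact conn_lower L (M ω) (hM ω) _ h1 (fun x hx => (mem_filter.1 hx).2) _ h2
    (fun y hy => (mem_filter.1 hy).2) (hQ ω) (hlen ω) hκ hρ hρ2 hm

end Pool.Agent.HM94.NL
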