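import Pool.Agent.HM94.NL.ProgSav

/-!
# The machine for directed reachability: length and number of registers
-/

set_option autoImplicit false

namespace Pool.Agent.HM94.NL

open Finset Pool.Agent.HM94.MSC

variable {k c w T : ℕ}

theorem flatMap_length {α β : Type} (l : List α) (f : α → List β) (n : ℕ)
    (h : ∀ a ∈ l, (f a).length = n) : (l.flatMap f).length = l.length * n := by
  induction l with
  | nil => simp
  | cons a l ih =>
    rw [List.flatMap_cons, List.length_append, h a (by simp),
      ih fun b hb => h b (List.mem_cons_of_mem _ hb), List.length_cons]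
    ring

/-- The length of a segment. -/
def segN (c w : ℕ) : ℕ → ℕ
  | 0 => w * w * 3
  | j + 1 => c * (w + (segN c w j + segN c w j))

theorem segP_length : ∀ (j t : ℕ) (A C : Fin c) (src dst : Fin (k + 2)),
    (segP j t A C src dst : List (Instr (Edge T (c * w)) (Rg k w))).length = segN c w j := by
  intro j
  induction j with
  | zero =>
    intro t A C src dst
    unfold segP segN
    rw [flatMap_length _ _ 3 fun q _ => rfl]
    congr 1
    rw [Finset.length_toList, card_univ, Fintype.card_prod, Fintype.card_fin]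
  | succ j ih =>
    intro t A C src dst
    unfold segP segN
    rw [flatMap_length _ _ (w + (segN c w j + segN c w j)) fun D _ => by
      rw [List.length_append, List.length_append, ih, ih]
      unfold clr
      rw [List.length_map, List.length_finRange]]
    rw [List.length_finRange]

theorem segN_le (hc : 1 ≤ c) (hw : 1 ≤ w) (j : ℕ) : segN c w j + w ≤ 4 * (w * w) * (2 * c) ^ j := by
  induction j with
  | zero =>
    unfold segN
    rw [pow_zero, mul_one]
    have : w * 1 ≤ w * w := Nat.mul_le_mul_left _ hw
    omega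
  | succ j ih =>
    unfold segN
    calc c * (w + (segN c w j + segN c w j)) + w ≤ c * (w + (segN c w j + segN c w j)) + c * w :=
          Nat.add_le_add_left (Nat.le_mul_of_pos_left w hc) _
      _ = c * (2 * (segN c w j + w)) := by ring
      _ ≤ c * (2 * (4 * (w * w) * (2 * c) ^ j)) :=
          Nat.mul_le_mul_left _ (Nat.mul_le_mul_left _ ih)
      _ = 4 * (w * w) * (2 * c) ^ (j + 1) := by rw [pow_succ]; ring

theorem savP_length (hc : 1 ≤ c) (hw : 1 ≤ w) :
    (savP k c w).length ≤ 6 * (c * w) ^ 2 * (2 * c) ^ k := by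
  unfold savP
  rw [flatMap_length _ _ (w + (w + (segN c w k + w))) fun q _ => by
    rw [List.length_append, List.length_append, List.length_append, segP_length]
    unfold clr colP
    rw [List.length_map, List.length_map, List.length_map, List.length_finRange]]
  have h1 : ((univ : Finset (Fin c × Fin c)).toList).length = c * c := by
    rw [Finset.length_toList, card_univ, Fintype.card_prod, Fintype.card_fin]
  rw [h1]
  have h2 := segN_le hc hw k
  have h3 : 1 ≤ (2 * c) ^ k := Nat.one_le_pow _ _ (by omega)
  have h4 : w ≤ w * w * (2 * c) ^ k := by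
    calc w = w * 1 * 1 := by ring
      _ ≤ w * w * (2 * c) ^ k := Nat.mul_le_mul (Nat.mul_le_mul_left _ hw) h3
  calc c * c * (w + (w + (segN c w k + w)))
      ≤ c * c * (w * w * (2 * c) ^ k + (w * w * (2 * c) ^ k + 4 * (w * w) * (2 * c) ^ k)) :=
        Nat.mul_le_mul_left _ (Nat.add_le_add h4 (Nat.add_le_add h4 h2))
    _ = 6 * (c * w) ^ 2 * (2 * c) ^ k := by ring

theorem mono_append {ι R : Type} {P Q : List (Instr ι R)} (hP : MonoProg P) (hQ : MonoProg Q) :
    MonoProg (P ++ Q) := by
  intro q a h
  rcases List.mem_append.1 h with h1 | h1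
  · exact hP q a h1
  · exact hQ q a h1

theorem mono_flatMap {ι R α : Type} {l : List α} {f : α → List (Instr ι R)}
    (h : ∀ a ∈ l, MonoProg (f a)) : MonoProg (l.flatMap f) := by
  intro q a hm
  obtain ⟨b, hb, h1⟩ := List.mem_flatMap.1 hm
  exact h b hb q a h1

theorem mono_clr (B : Fin (k + 2)) (b : Bool) :
    MonoProg (clr B b : List (Instr (Edge T (c * w)) (Rg k w))) := by
  intro q a h
  unfold clr at h
  rw [List.mem_map] at h
  obtain ⟨u, _, h1⟩ := h
  exact absurd h1 (by simp)

theorem mono_seg : ∀ (j t : ℕ) (A C : Fin c) (src dst : Fin (k + 2)),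
    MonoProg (segP j t A C src dst : List (Instr (Edge T (c * w)) (Rg k w))) := by
  intro j
  induction j with
  | zero =>
    intro t A C src dst
    unfold segP
    refine mono_flatMap fun q _ => ?_
    intro r a h
    unfold bstep at h
    simp only [List.mem_cons, List.not_mem_nil, or_false] at h
    rcases h with h | h | h
    · split_ifs at h
    · simp at h
    · simp at h
  | succ j ih =>
    intro t A C src dst
    unfold segP
    exact mono_flatMap fun D _ => mono_append (mono_clr _ _) (mono_append (ih _ _ _ _ _) (ih _ _ _ _ _))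

theorem mono_sav : MonoProg (savP k c w) := by
  unfold savP
  refine mono_flatMap fun q _ => mono_append (mono_clr _ _) (mono_append (mono_clr _ _)
    (mono_append (mono_seg _ _ _ _ _ _) ?_))
  intro r a h
  unfold colP at h
  rw [List.mem_map] at h
  obtain ⟨u, _, h1⟩ := h
  exact absurd h1 (by simp)

/-- **The upper bound.** -/
theorem conn_upper (k c w : ℕ) (hc : 1 ≤ c) (hw : 1 ≤ w) :
    ∃ M : Machine (Edge (2 ^ k) (c * w)) (Fin ((k + 2) * w + 2) → Bool), M.MonoIn Set.univ ∧
      M.len ≤ 6 * (c * w) ^ 2 * (2 * c) ^ k ∧ ∀ x, M.out x = conn x := by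
  have hcw : 0 < c * w := Nat.mul_pos hc hw
  have hcard : Fintype.card (Rg k w) = (k + 2) * w + 2 := by
    rw [Fintype.card_sum, Fintype.card_prod, Fintype.card_fin, Fintype.card_fin, Fintype.card_bool]
  set ψ : Rg k w ≃ Fin ((k + 2) * w + 2) := Fintype.equivFinOfCardEq hcard with hψ
  set P : List (Instr (Edge (2 ^ k) (c * w)) (Fin ((k + 2) * w + 2))) :=
    (savP k c w).map (Instr.map (fun e => .inl e) ψ) with hP
  have hmono : MonoProg P := by
    intro q a h
    rw [hP, List.mem_map] at h
    obtain ⟨I, hI, h1⟩ := h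
    rcases I with ⟨q', i⟩ | ⟨q', b⟩ | ⟨q', a'⟩ | ⟨q', a', b⟩ | ⟨q', a', b⟩
    · simp [Instr.map] at h1
    · simp [Instr.map] at h1
    · exact mono_sav _ _ hI
    · simp [Instr.map] at h1
    · simp [Instr.map] at h1
  refine ⟨progM P (ψ (.inr true)) (⟨0, by positivity⟩, ⟨0, hcw⟩, ⟨0, hcw⟩),
    progM_mono hmono _ _ _, ?_, fun x => ?_⟩
  · change P.length ≤ _
    rw [hP, List.length_map]
    exact savP_length hc hw
  · rw [progM_out, hP, exec_map _ ψ.injective, ← savP_exec]
    rfl

end Pool.Agent.HM94.NL
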